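import Mathlib

set_option autoImplicit false

/-! Digit counts of natural numbers. -/

namespace Pool.Agent.H426R3.SN

open Finset

/-- the number of digits equal to `k` among the lowest `h` base-`D` digits of `x` -/
def occ (D h k x : ℕ) : ℕ := ((range h).filter (fun j => x / D ^ j % D = k)).card

theorem occ_zero (D k x : ℕ) : occ D 0 k x = 0 := by simp [occ]

theorem occ_eq_sum (D h k x : ℕ) : occ D h k x = ∑ j ∈ range h, if x / D ^ j % D = k then 1 else 0 := by
  simp [occ]

theorem occ_add {D h1 h2 k z y : ℕ} (hD : 0 < D) (hz : z < D ^ h1) :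
    occ D (h1 + h2) k (z + D ^ h1 * y) = occ D h1 k z + occ D h2 k y := by
  rw [occ_eq_sum, occ_eq_sum, occ_eq_sum, Finset.sum_range_add]
  congr 1
  · refine Finset.sum_congr rfl fun j hj => ?_
    have hj' : j < h1 := Finset.mem_range.mp hj
    have e : (z + D ^ h1 * y) / D ^ j % D = z / D ^ j % D := by
      have h1' : h1 = j + (h1 - j - 1) + 1 := by omega
      have : D ^ h1 * y = D ^ j * (D * (D ^ (h1 - j - 1) * y)) := by
        conv_lhs => rw [h1']
        ring
      rw [this, Nat.add_mul_div_left _ _ (pow_pos hD j), Nat.add_mul_mod_self_left]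
    rw [e]
  · refine Finset.sum_congr rfl fun j _ => ?_
    have e : (z + D ^ h1 * y) / D ^ (h1 + j) = y / D ^ j := by
      rw [pow_add, ← Nat.div_div_eq_div_mul, Nat.add_mul_div_left _ _ (pow_pos hD h1),
        Nat.div_eq_of_lt hz, zero_add]
    rw [e]

theorem occ_cons {D h k a y : ℕ} (ha : a < D) :
    occ D (h + 1) k (a + D * y) = (if a = k then 1 else 0) + occ D h k y := by
  have h1 := occ_add (D := D) (h1 := 1) (h2 := h) (k := k) (z := a) (y := y) (by omega) (by simpa using ha)
  rw [pow_one, add_comm 1 h] at h1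
  rw [h1]
  congr 1
  rw [occ_eq_sum, Finset.sum_range_one, pow_zero, Nat.div_one, Nat.mod_eq_of_lt ha]

theorem occ_le (D h k x : ℕ) : occ D h k x ≤ h := by
  unfold occ
  exact (Finset.card_filter_le _ _).trans (by simp)

/-- grouping digits -/
theorem occ_group {D : ℕ} (q h k x : ℕ) :
    occ D (q * h) k x = ∑ j ∈ range h, occ D q k (x / (D ^ q) ^ j % D ^ q) := by
  induction h with
  | zero => simp [occ_zero]
  | succ h ih =>
    rw [Finset.sum_range_succ, ← ih, Nat.mul_succ, occ_eq_sum, occ_eq_sum, occ_eq_sum,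
      Finset.sum_range_add]
    congr 1
    refine Finset.sum_congr rfl fun j hj => ?_
    have hj' : j < q := Finset.mem_range.mp hj
    have e : x / (D ^ q) ^ h % D ^ q / D ^ j % D = x / D ^ (q * h + j) % D := by
      rw [← pow_mul, pow_add, ← Nat.div_div_eq_div_mul]
      set y := x / D ^ (q * h)
      have hq : q = j + (q - j - 1) + 1 := by omega
      conv_lhs => rw [hq]
      rw [show j + (q - j - 1) + 1 = j + ((q - j - 1) + 1) by ring, pow_add, Nat.mod_mul_right_div_self,
        pow_succ, Nat.mod_mul_left_mod]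
    rw [e]

theorem occ_group_sum {D : ℕ} (hD : 0 < D) (q h k x : ℕ) :
    occ D (q * h) k x = ∑ w ∈ range (D ^ q), occ (D ^ q) h w x * occ D q k w := by
  rw [occ_group]
  have h1 : ∀ j ∈ range h, occ D q k (x / (D ^ q) ^ j % D ^ q) =
      ∑ w ∈ range (D ^ q), (if x / (D ^ q) ^ j % D ^ q = w then 1 else 0) * occ D q k w := by
    intro j _
    rw [Finset.sum_eq_single (x / (D ^ q) ^ j % D ^ q)]
    · simp
    · intro b _ hb
      simp [Ne.symm hb]
    · intro h
      exact absurd (Finset.mem_range.mpr (Nat.mod_lt _ (pow_pos hD q))) h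
  rw [Finset.sum_congr rfl h1, Finset.sum_comm]
  refine Finset.sum_congr rfl fun w _ => ?_
  rw [← Finset.sum_mul, occ_eq_sum (D ^ q)]

theorem sum_range_mul' {β : Type*} [AddCommMonoid β] (D N : ℕ) (F : ℕ → β) :
    ∑ w ∈ range (D * N), F w = ∑ y ∈ range N, ∑ a ∈ range D, F (a + D * y) := by
  induction N with
  | zero => simp
  | succ N ih =>
    rw [Nat.mul_succ, Finset.sum_range_add, ih, Finset.sum_range_succ]
    congr 1
    refine Finset.sum_congr rfl fun a _ => ?_
    rw [add_comm]

/-- centred digit count `D * occ - q` -/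
def G (D q k : ℕ) (w : ℕ) : ℤ := (D : ℤ) * occ D q k w - q

theorem G_cons {D q k a y : ℕ} (ha : a < D) :
    G D (q + 1) k (a + D * y) = ((if a = k then (D : ℤ) else 0) - 1) + G D q k y := by
  unfold G
  rw [occ_cons ha]
  push_cast
  split_ifs <;> ring

theorem sum_G {D q k : ℕ} (hk : k < D) : ∑ w ∈ range (D ^ q), G D q k w = 0 := by
  induction q with
  | zero => simp [G, occ_zero]
  | succ q ih =>
    rw [pow_succ, mul_comm, sum_range_mul']
    have : ∀ y ∈ range (D ^ q), ∑ a ∈ range D, G D (q + 1) k (a + D * y) = D * G D q k y := by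
      intro y _
      rw [Finset.sum_congr rfl fun a ha => G_cons (Finset.mem_range.mp ha), Finset.sum_add_distrib,
        Finset.sum_sub_distrib, Finset.sum_ite_eq' (range D) k (fun _ => (D : ℤ))]
      simp [hk]
    rw [Finset.sum_congr rfl this, ← Finset.mul_sum, ih, mul_zero]

theorem sum_G_sq {D q k : ℕ} (hk : k < D) :
    ∑ w ∈ range (D ^ q), (G D q k w) ^ 2 = q * D ^ q * ((D : ℤ) - 1) := by
  induction q with
  | zero => simp [G, occ_zero]
  | succ q ih =>
    rw [pow_succ, mul_comm, sum_range_mul']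
    have : ∀ y ∈ range (D ^ q), ∑ a ∈ range D, (G D (q + 1) k (a + D * y)) ^ 2 =
        (D : ℤ) * (D - 1) + D * (G D q k y) ^ 2 := by
      intro y _
      have e : ∀ a ∈ range D, (G D (q + 1) k (a + D * y)) ^ 2 =
          (if a = k then ((D : ℤ) ^ 2 - 2 * D + 2 * D * G D q k y) else 0) +
            (1 - 2 * G D q k y + (G D q k y) ^ 2) := by
        intro a ha
        rw [G_cons (Finset.mem_range.mp ha)]
        split_ifs <;> ring
      rw [Finset.sum_congr rfl e, Finset.sum_add_distrib, Finset.sum_ite_eq' (range D) k]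
      simp [hk]
      ring
    rw [Finset.sum_congr rfl this, Finset.sum_add_distrib, ← Finset.mul_sum (f := fun y => G D q k y ^ 2), ih]
    simp
    ring

theorem abs_G_le {D q k w : ℕ} (hD : 1 ≤ D) : |G D q k w| ≤ D * q := by
  unfold G
  have h1 := occ_le D q k w
  have h2 : (0 : ℤ) ≤ (D : ℤ) * occ D q k w := by positivity
  have h3 : (D : ℤ) * occ D q k w ≤ D * q := by
    have : (occ D q k w : ℤ) ≤ q := by exact_mod_cast h1
    nlinarith
  have h4 : (q : ℤ) ≤ D * q := by
    have : (1 : ℤ) ≤ D := by exact_mod_cast hD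
    nlinarith
  rw [abs_le]
  constructor <;> linarith

end Pool.Agent.H426R3.SN
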