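import Mathlib
import Pool.Agent.H426R3.SN.Occ

set_option autoImplicit false

/-! Many balanced words, and words with prescribed letter counts. -/

namespace Pool.Agent.H426R3.SN

open Finset

/-- `u` is a word of length `B * L` over `B` letters, each used `L` times -/
def IsBal (B L u : ℕ) : Prop := u < B ^ (B * L) ∧ ∀ w < B, occ B (B * L) w u = L

instance (B L : ℕ) : DecidablePred (IsBal B L) := fun _ => by unfold IsBal; infer_instance

theorem occ_eq_card_fin {B T : ℕ} (f : Fin T → Fin B) (w : Fin B) :
    occ B T w (finFunctionFinEquiv f : Fin (B ^ T)) = (univ.filter (fun i => f i = w)).card := by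
  rw [occ_eq_sum, Finset.card_filter, ← Fin.sum_univ_eq_sum_range
    (fun j => if ((finFunctionFinEquiv f : Fin (B ^ T)) : ℕ) / B ^ j % B = w then 1 else 0) T]
  refine Finset.sum_congr rfl fun i _ => ?_
  have h := congrFun (finFunctionFinEquiv.symm_apply_apply f) i
  have h2 : ((finFunctionFinEquiv f : Fin (B ^ T)) : ℕ) / B ^ (i : ℕ) % B = (f i : ℕ) := by
    conv_rhs => rw [← h]
    rfl
  rw [h2]
  simp [Fin.ext_iff]

theorem pigeon {α β : Type*} [Fintype α] [Fintype β] [DecidableEq β] (hβ : 0 < Fintype.card β) (f : α → β) :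
    ∃ v : β, Fintype.card α ≤ (univ.filter (fun x => f x = v)).card * Fintype.card β := by
  by_contra hcon
  push Not at hcon
  have h1 : Fintype.card α = ∑ v : β, (univ.filter (fun x => f x = v)).card := by
    rw [← Finset.card_univ, Finset.card_eq_sum_card_fiberwise (t := univ) (f := f) (by simp)]
  have hne : (univ : Finset β).Nonempty := by
    rw [← Finset.card_pos, Finset.card_univ]; exact hβ
  have h2 : ∑ v : β, (univ.filter (fun x => f x = v)).card * Fintype.card β <
      ∑ _v : β, Fintype.card α := Finset.sum_lt_sum_of_nonempty hne fun v _ => hcon v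
  rw [← Finset.sum_mul, ← h1, Finset.sum_const, Finset.card_univ, smul_eq_mul, mul_comm] at h2
  exact lt_irrefl _ h2

theorem bal_card_fun (B L : ℕ) (hB : 0 < B) :
    B ^ (B * L) ≤ (univ.filter (fun f : Fin B × Fin L → Fin B =>
      ∀ w, (univ.filter (fun i => f i = w)).card = L)).card * (L + 1) ^ (B * B) := by
  classical
  have : NeZero B := ⟨hB.ne'⟩
  let cv : (Fin L → Fin B) → (Fin B → Fin (L + 1)) := fun f w =>
    ⟨(univ.filter (fun i => f i = w)).card, Nat.lt_succ_of_le
      ((Finset.card_filter_le _ _).trans (by simp))⟩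
  obtain ⟨v, hv⟩ := pigeon (by simp) cv
  simp only [Fintype.card_fun, Fintype.card_fin] at hv
  set V : Finset (Fin L → Fin B) := univ.filter (fun x => cv x = v) with hV
  have hsum : ∀ u ∈ V, ∀ w : Fin B, (univ.filter (fun i => u i = w)).card = (v w : ℕ) := by
    intro u hu w
    rw [hV, Finset.mem_filter] at hu
    have := congrArg (fun g : Fin B → Fin (L + 1) => ((g w : Fin (L + 1)) : ℕ)) hu.2
    simpa [cv] using this
  -- the total of the count vector
  have htot : V.Nonempty → ∑ w : Fin B, (v w : ℕ) = L := by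
    rintro ⟨u, hu⟩
    have : ∑ w : Fin B, (univ.filter (fun i => u i = w)).card = L := by
      rw [← Finset.card_eq_sum_card_fiberwise (s := univ) (t := univ) (f := u) (by simp)]
      simp
    refine Eq.trans ?_ this
    exact Finset.sum_congr rfl fun w _ => (hsum u hu w).symm
  let Φ : (Fin B → (Fin L → Fin B)) → (Fin B × Fin L → Fin B) := fun U p => U p.1 p.2 + p.1
  have hΦ : Function.Injective Φ := by
    intro U U' h
    funext j i
    have := congrFun h (j, i)
    simpa [Φ] using this
  have hmaps : ∀ U ∈ Fintype.piFinset (fun _ : Fin B => V), Φ U ∈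
      univ.filter (fun f : Fin B × Fin L → Fin B =>
      ∀ w, (univ.filter (fun i => f i = w)).card = L) := by
    intro U hU
    rw [Fintype.mem_piFinset] at hU
    rw [Finset.mem_filter]
    refine ⟨Finset.mem_univ _, fun w => ?_⟩
    have e1 : (univ.filter (fun p : Fin B × Fin L => Φ U p = w)).card =
        ∑ j : Fin B, (univ.filter (fun i : Fin L => U j i = w - j)).card := by
      rw [Finset.card_filter, Fintype.sum_prod_type]
      refine Finset.sum_congr rfl fun j _ => ?_
      rw [Finset.card_filter]
      refine Finset.sum_congr rfl fun i _ => ?_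
      simp only [Φ, eq_sub_iff_add_eq]
    rw [e1, Finset.sum_congr rfl fun j _ => hsum (U j) (hU j) (w - j)]
    refine Eq.trans ?_ (htot ⟨U ⟨0, hB⟩, hU _⟩)
    exact Fintype.sum_equiv (Equiv.subLeft w) _ _ (fun j => rfl)
  have hcard : V.card ^ B ≤ (univ.filter (fun f : Fin B × Fin L → Fin B =>
      ∀ w, (univ.filter (fun i => f i = w)).card = L)).card := by
    have h1 := Finset.card_le_card_of_injOn Φ hmaps (hΦ.injOn)
    rwa [Fintype.card_piFinset, Finset.prod_const, Finset.card_univ, Fintype.card_fin] at h1
  calc B ^ (B * L) = (B ^ L) ^ B := by rw [← pow_mul, mul_comm]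
    _ ≤ (V.card * (L + 1) ^ B) ^ B := Nat.pow_le_pow_left hv B
    _ = V.card ^ B * (L + 1) ^ (B * B) := by rw [mul_pow, ← pow_mul]
    _ ≤ _ := Nat.mul_le_mul_right _ hcard

theorem bal_card (B L : ℕ) (hB : 0 < B) :
    B ^ (B * L) ≤ ((range (B ^ (B * L))).filter (IsBal B L)).card * (L + 1) ^ (B * B) := by
  classical
  refine (bal_card_fun B L hB).trans (Nat.mul_le_mul_right _ ?_)
  let e : (Fin B × Fin L → Fin B) ≃ (Fin (B * L) → Fin B) :=
    Equiv.arrowCongr finProdFinEquiv (Equiv.refl _)
  refine Finset.card_le_card_of_injOn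
    (fun f => ((finFunctionFinEquiv (e f) : Fin (B ^ (B * L))) : ℕ)) ?_ ?_
  · intro f hf
    rw [Finset.mem_coe, Finset.mem_filter] at hf
    rw [Finset.mem_coe, Finset.mem_filter]
    refine ⟨Finset.mem_range.mpr (Fin.is_lt _), Fin.is_lt _, fun w hw => ?_⟩
    have h1 := occ_eq_card_fin (e f) ⟨w, hw⟩
    simp only at h1
    rw [h1]
    refine Eq.trans ?_ (hf.2 ⟨w, hw⟩)
    refine Finset.card_bij (fun i _ => finProdFinEquiv.symm i) ?_ ?_ ?_
    · intro i hi
      simp only [Finset.mem_filter, Finset.mem_univ, true_and] at hi ⊢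
      exact hi
    · intro i _ j _ h
      exact finProdFinEquiv.symm.injective h
    · intro p hp
      simp only [Finset.mem_filter, Finset.mem_univ, true_and] at hp
      refine ⟨finProdFinEquiv p, ?_, by simp⟩
      simp only [Finset.mem_filter, Finset.mem_univ, true_and]
      simp [e, hp]
  · intro f _ g _ h
    have h1 : (finFunctionFinEquiv (e f) : Fin (B ^ (B * L))) = finFunctionFinEquiv (e g) := Fin.ext h
    exact e.injective (finFunctionFinEquiv.injective h1)

theorem exists_word_list {B : ℕ} (l : List ℕ) (hl : ∀ a ∈ l, a < B) :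
    ∃ v < B ^ l.length, ∀ w, occ B l.length w v = l.count w := by
  induction l with
  | nil => exact ⟨0, by simp, by simp [occ_zero]⟩
  | cons a l ih =>
    obtain ⟨v, hv, h⟩ := ih (fun b hb => hl b (List.mem_cons_of_mem _ hb))
    have ha : a < B := hl a (by simp)
    refine ⟨a + B * v, ?_, fun w => ?_⟩
    · rw [List.length_cons, pow_succ]
      calc a + B * v < B + B * v := by omega
        _ = B * (v + 1) := by ring
        _ ≤ B * B ^ l.length := Nat.mul_le_mul_left _ hv
        _ = _ := by ring
    · rw [List.length_cons, occ_cons ha, h, List.count_cons, add_comm]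
      congr 1
      simp [beq_iff_eq]

theorem exists_word {B : ℕ} (cnt : ℕ → ℕ) :
    ∃ v < B ^ (∑ w ∈ range B, cnt w), ∀ w < B, occ B (∑ w ∈ range B, cnt w) w v = cnt w := by
  have key : ∀ b : ℕ, ∃ l : List ℕ, l.length = ∑ w ∈ range b, cnt w ∧ (∀ a ∈ l, a < b) ∧
      ∀ w < b, l.count w = cnt w := by
    intro b
    induction b with
    | zero => exact ⟨[], by simp, by simp, by simp⟩
    | succ b ih =>
      obtain ⟨l, h1, h2, h3⟩ := ih
      refine ⟨l ++ List.replicate (cnt b) b, ?_, ?_, ?_⟩
      · rw [List.length_append, h1, List.length_replicate, Finset.sum_range_succ]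
      · intro a ha
        rw [List.mem_append] at ha
        rcases ha with ha | ha
        · exact (h2 a ha).trans (Nat.lt_succ_self b)
        · rw [List.eq_of_mem_replicate ha]; exact Nat.lt_succ_self b
      · intro w hw
        rw [List.count_append, List.count_replicate]
        rcases Nat.lt_succ_iff_lt_or_eq.mp hw with hw | rfl
        · rw [h3 w hw]
          simp [hw.ne']
        · have : l.count w = 0 := by
            rw [List.count_eq_zero]
            exact fun h => lt_irrefl _ (h2 w h)
          simp [this]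
  obtain ⟨l, h1, h2, h3⟩ := key B
  obtain ⟨v, hv, h⟩ := exists_word_list l h2
  rw [h1] at hv
  refine ⟨v, hv, fun w hw => ?_⟩
  rw [← h1, h w, h3 w hw]

end Pool.Agent.H426R3.SN
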