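import Mathlib
import Pool.Agent.H426R3.SN.Bal

set_option autoImplicit false

/-! Parameters, goals and elements of the classes. -/

namespace Pool.Agent.H426R3.SN

open Finset

def hh (j : ℕ) : ℕ := j.factorial * 2 ^ j.factorial * (2 ^ j.factorial * j.factorial + 1)

def mu (C : ℕ) : ℕ := Nat.findGreatest (fun j => hh j ≤ C) C

/-- block length used in class `c` -/
def MM (c : ℕ) : ℕ := (mu (c + 16)).factorial

/-- number of letters -/
def BB (c : ℕ) : ℕ := 2 ^ MM c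

def QQ (c : ℕ) : ℕ := BB c * MM c + 1

def UU (c : ℕ) : ℕ := MM c * BB c

/-- number of bits of the elements of class `c` -/
def ell (c : ℕ) : ℕ := UU c * ((c + 16) ^ 3 / UU c + 1)

def LL (c : ℕ) : ℕ := (c + 16) ^ 3 / UU c + 1 - QQ c

theorem MM_pos (c : ℕ) : 1 ≤ MM c := Nat.factorial_pos _

theorem BB_pos (c : ℕ) : 1 ≤ BB c := Nat.one_le_two_pow

theorem two_le_BB (c : ℕ) : 2 ≤ BB c := by
  unfold BB
  calc 2 = 2 ^ 1 := by norm_num
    _ ≤ 2 ^ MM c := Nat.pow_le_pow_right (by norm_num) (MM_pos c)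

theorem UU_pos (c : ℕ) : 1 ≤ UU c := Nat.mul_pos (MM_pos c) (BB_pos c)

theorem hh_mu (c : ℕ) : hh (mu (c + 16)) ≤ c + 16 := by
  unfold mu
  have h0 : hh 0 ≤ c + 16 := by
    have : hh 0 = 6 := by decide
    omega
  exact Nat.findGreatest_spec (P := fun j => hh j ≤ c + 16) (Nat.zero_le _) h0

theorem UQ_le (c : ℕ) : UU c * QQ c ≤ c + 16 := by
  have := hh_mu c
  unfold hh at this
  unfold UU QQ BB MM
  exact this

theorem UU_le (c : ℕ) : UU c ≤ c + 16 :=
  (Nat.le_mul_of_pos_right _ (Nat.succ_pos _)).trans (UQ_le c)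

theorem QQ_le (c : ℕ) : QQ c ≤ c + 16 :=
  (Nat.le_mul_of_pos_left _ (UU_pos c)).trans (UQ_le c)

theorem MM_le (c : ℕ) : MM c ≤ c + 16 :=
  (Nat.le_mul_of_pos_right _ (BB_pos c)).trans (UU_le c)

theorem BB_sq_le (c : ℕ) : BB c * BB c ≤ c + 16 := by
  refine le_trans ?_ (UQ_le c)
  unfold UU QQ
  have := MM_pos c
  calc BB c * BB c ≤ (MM c * BB c) * (BB c * MM c) := by nlinarith [Nat.mul_le_mul this this, Nat.zero_le (BB c * BB c)]
    _ ≤ (MM c * BB c) * (BB c * MM c + 1) := Nat.mul_le_mul_left _ (Nat.le_succ _)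

theorem ell_gt (c : ℕ) : (c + 16) ^ 3 < ell c := by
  unfold ell
  exact Nat.lt_mul_div_succ _ (UU_pos c)

theorem ell_le (c : ℕ) : ell c ≤ (c + 16) ^ 3 + (c + 16) := by
  unfold ell
  rw [Nat.mul_succ]
  exact Nat.add_le_add (Nat.mul_div_le _ _) (UU_le c)

theorem LQ (c : ℕ) : LL c + QQ c = (c + 16) ^ 3 / UU c + 1 := by
  unfold LL
  have h1 : QQ c ≤ (c + 16) ^ 3 / UU c := by
    rw [Nat.le_div_iff_mul_le (UU_pos c), mul_comm]
    refine (UQ_le c).trans ?_
    calc c + 16 = (c + 16) ^ 1 := (pow_one _).symm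
      _ ≤ (c + 16) ^ 3 := Nat.pow_le_pow_right (by omega) (by norm_num)
  omega

theorem ell_eq (c : ℕ) : ell c = MM c * (BB c * (LL c + QQ c)) := by
  rw [LQ]
  unfold ell UU
  ring

theorem MM_dvd_ell (c : ℕ) : MM c ∣ ell c := by
  rw [ell_eq]; exact Dvd.intro _ rfl

theorem LL_le (c : ℕ) : LL c ≤ (c + 16) ^ 3 + 1 := by
  unfold LL
  have : (c + 16) ^ 3 / UU c ≤ (c + 16) ^ 3 := Nat.div_le_self _ _
  omega

theorem dvd_MM (m : ℕ) (hm : 1 ≤ m) : ∃ c0, ∀ c, c0 ≤ c → m ∣ MM c := by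
  refine ⟨hh m + m, fun c hc => ?_⟩
  unfold MM
  refine Nat.dvd_factorial hm ?_
  unfold mu
  exact Nat.le_findGreatest (by omega) (by omega)

/-! ### goals -/

def prop_m (c : ℕ) : ℕ := (Nat.unpair (Nat.unpair c).1).1
def prop_k (c : ℕ) : ℕ := (Nat.unpair (Nat.unpair (Nat.unpair c).1).2).1
def prop_s (c : ℕ) : ℕ := (Nat.unpair (Nat.unpair (Nat.unpair c).1).2).2

def cond (c : ℕ) : Prop := 1 ≤ prop_m c ∧ prop_m c ∣ MM c ∧ prop_k c < 2 ^ prop_m c

instance : DecidablePred cond := fun _ => by unfold cond; infer_instance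

def gm (c : ℕ) : ℕ := if cond c then prop_m c else 1
def gk (c : ℕ) : ℕ := if cond c then prop_k c else 0
def gs (c : ℕ) : ℤ := if prop_s c = 0 then 1 else -1

theorem gm_pos (c : ℕ) : 1 ≤ gm c := by
  unfold gm; split_ifs with h
  · exact h.1
  · exact le_rfl

theorem gm_dvd (c : ℕ) : gm c ∣ MM c := by
  unfold gm; split_ifs with h
  · exact h.2.1
  · exact one_dvd _

theorem gk_lt (c : ℕ) : gk c < 2 ^ gm c := by
  unfold gk gm; split_ifs with h
  · exact h.2.2
  · norm_num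

theorem gs_abs (c : ℕ) : |gs c| = 1 := by
  unfold gs; split_ifs <;> simp

theorem goal_freq (m k : ℕ) (hm : 1 ≤ m) (hk : k < 2 ^ m) (s : ℤ) (hs : s = 1 ∨ s = -1) (N : ℕ) :
    ∃ c, N ≤ c ∧ gm c = m ∧ gk c = k ∧ gs c = s := by
  obtain ⟨c0, hc0⟩ := dvd_MM m hm
  let s' : ℕ := if s = 1 then 0 else 1
  let z := Nat.pair m (Nat.pair k s')
  let c := Nat.pair z (max N c0)
  have hc : max N c0 ≤ c := Nat.right_le_pair _ _
  have h1 : prop_m c = m := by simp [prop_m, c, z]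
  have h2 : prop_k c = k := by simp [prop_k, c, z]
  have h3 : prop_s c = s' := by simp [prop_s, c, z]
  have hcond : cond c := ⟨by rw [h1]; exact hm, by rw [h1]; exact hc0 c ((le_max_right _ _).trans hc),
    by rw [h1, h2]; exact hk⟩
  refine ⟨c, (le_max_left _ _).trans hc, ?_, ?_, ?_⟩
  · simp [gm, hcond, h1]
  · simp [gk, hcond, h2]
  · unfold gs
    rw [h3]
    rcases hs with rfl | rfl
    · simp [s']
    · simp [s']

/-! ### elements -/

/-- the direction of class `c` -/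
def GG (c w : ℕ) : ℤ := G (2 ^ gm c) (MM c / gm c) (gk c) w

theorem pow_gm (c : ℕ) : (2 ^ gm c) ^ (MM c / gm c) = BB c := by
  rw [← pow_mul, Nat.mul_div_cancel' (gm_dvd c)]; rfl

theorem sum_GG (c : ℕ) : ∑ w ∈ range (BB c), GG c w = 0 := by
  unfold GG
  rw [← pow_gm c]
  exact sum_G (gk_lt c)

theorem abs_GG_le (c w : ℕ) : |GG c w| ≤ BB c * MM c := by
  unfold GG
  refine (abs_G_le Nat.one_le_two_pow).trans ?_
  have h1 : (2 : ℕ) ^ gm c ≤ BB c := Nat.pow_le_pow_right (by norm_num)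
    (Nat.le_of_dvd (MM_pos c) (gm_dvd c))
  have h2 : MM c / gm c ≤ MM c := Nat.div_le_self _ _
  exact_mod_cast Nat.mul_le_mul h1 h2

/-- the top letter -/
def PP (c : ℕ) : ℕ := 2 ^ (MM c - 1)

theorem PP_lt (c : ℕ) : PP c < BB c := by
  unfold PP BB
  exact Nat.pow_lt_pow_right (by norm_num) (by have := MM_pos c; omega)

/-- letter counts of the last part of an element -/
def cnt (c : ℕ) (e : ℤ) (w : ℕ) : ℕ := ((QQ c : ℤ) + e * GG c w - if PP c = w then 1 else 0).toNat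

theorem cnt_cast (c : ℕ) (e : ℤ) (he : |e| ≤ 1) (w : ℕ) :
    (cnt c e w : ℤ) = (QQ c : ℤ) + e * GG c w - if PP c = w then 1 else 0 := by
  unfold cnt
  refine Int.toNat_of_nonneg ?_
  have h1 := abs_GG_le c w
  have h2 : |e * GG c w| ≤ BB c * MM c := by
    rw [abs_mul]
    calc |e| * |GG c w| ≤ 1 * |GG c w| := mul_le_mul_of_nonneg_right he (abs_nonneg _)
      _ ≤ _ := by rw [one_mul]; exact h1
  have h3 := (abs_le.mp h2).1
  have h4 : (QQ c : ℤ) = BB c * MM c + 1 := by unfold QQ; push_cast; ring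
  split_ifs <;> linarith

theorem sum_cnt (c : ℕ) (e : ℤ) (he : |e| ≤ 1) :
    ∑ w ∈ range (BB c), cnt c e w + 1 = BB c * QQ c := by
  have h : ((∑ w ∈ range (BB c), cnt c e w : ℕ) : ℤ) = BB c * QQ c - 1 := by
    push_cast
    rw [Finset.sum_congr rfl fun w _ => cnt_cast c e he w, Finset.sum_sub_distrib,
      Finset.sum_add_distrib, ← Finset.mul_sum, sum_GG, Finset.sum_ite_eq (range (BB c)) (PP c),
      if_pos (Finset.mem_range.mpr (PP_lt c)), Finset.sum_const, Finset.card_range, nsmul_eq_mul,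
      mul_zero, add_zero]
  have h2 : ((∑ w ∈ range (BB c), cnt c e w + 1 : ℕ) : ℤ) = ((BB c * QQ c : ℕ) : ℤ) := by
    rw [Nat.cast_add, h, Nat.cast_mul, Nat.cast_one]
    ring
  exact Int.ofNat_inj.mp h2

/-- the last part of an element -/
noncomputable def vv (c : ℕ) (e : ℤ) : ℕ := Classical.choose (exists_word (B := BB c) (cnt c e))

theorem vv_spec (c : ℕ) (e : ℤ) : vv c e < BB c ^ (∑ w ∈ range (BB c), cnt c e w) ∧
    ∀ w < BB c, occ (BB c) (∑ w ∈ range (BB c), cnt c e w) w (vv c e) = cnt c e w :=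
  Classical.choose_spec (exists_word (B := BB c) (cnt c e))

/-- an element -/
noncomputable def el (c u : ℕ) (e : ℤ) : ℕ :=
  vv c e + BB c ^ (BB c * QQ c - 1) * (u + BB c ^ (BB c * LL c) * PP c)

theorem sum_cnt' (c : ℕ) (e : ℤ) (he : |e| ≤ 1) :
    ∑ w ∈ range (BB c), cnt c e w = BB c * QQ c - 1 := by
  have := sum_cnt c e he; omega

theorem vv_lt (c : ℕ) (e : ℤ) (he : |e| ≤ 1) : vv c e < BB c ^ (BB c * QQ c - 1) := by
  have := (vv_spec c e).1
  rwa [sum_cnt' c e he] at this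

theorem BQ_pos (c : ℕ) : 1 ≤ BB c * QQ c := Nat.mul_pos (BB_pos c) (Nat.succ_pos _)

theorem el_occ (c u : ℕ) (e : ℤ) (he : |e| ≤ 1) (hu : IsBal (BB c) (LL c) u) (w : ℕ) (hw : w < BB c) :
    (occ (BB c) (BB c * (LL c + QQ c)) w (el c u e) : ℤ) = LL c + QQ c + e * GG c w := by
  have e1 : BB c * (LL c + QQ c) = (BB c * QQ c - 1) + (BB c * LL c + 1) := by
    have := BQ_pos c
    have : BB c * (LL c + QQ c) = BB c * QQ c + BB c * LL c := by ring
    omega
  have h1 := (vv_spec c e).2 w hw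
  rw [sum_cnt' c e he] at h1
  rw [e1, el, occ_add (BB_pos c) (vv_lt c e he), occ_add (BB_pos c) hu.1, h1, hu.2 w hw]
  have h2 : occ (BB c) 1 w (PP c) = if PP c = w then 1 else 0 := by
    have := occ_cons (D := BB c) (h := 0) (k := w) (a := PP c) (y := 0) (PP_lt c)
    simpa [occ_zero] using this
  rw [h2]
  push_cast
  rw [cnt_cast c e he]
  ring

theorem el_lt (c u : ℕ) (e : ℤ) (he : |e| ≤ 1) (hu : IsBal (BB c) (LL c) u) : el c u e < 2 ^ ell c := by
  have h1 := vv_lt c e he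
  have h2 : u + BB c ^ (BB c * LL c) * PP c < BB c ^ (BB c * LL c + 1) := by
    have h3 := hu.1
    have h4 := PP_lt c
    calc u + BB c ^ (BB c * LL c) * PP c < BB c ^ (BB c * LL c) + BB c ^ (BB c * LL c) * PP c := by omega
      _ = BB c ^ (BB c * LL c) * (PP c + 1) := by ring
      _ ≤ BB c ^ (BB c * LL c) * BB c := Nat.mul_le_mul_left _ h4
      _ = _ := by ring
  have e1 : (BB c * QQ c - 1) + (BB c * LL c + 1) = BB c * (LL c + QQ c) := by
    have := BQ_pos c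
    have : BB c * (LL c + QQ c) = BB c * QQ c + BB c * LL c := by ring
    omega
  calc el c u e < BB c ^ (BB c * QQ c - 1) + BB c ^ (BB c * QQ c - 1) * (u + BB c ^ (BB c * LL c) * PP c) := by
        unfold el; omega
    _ = BB c ^ (BB c * QQ c - 1) * (u + BB c ^ (BB c * LL c) * PP c + 1) := by ring
    _ ≤ BB c ^ (BB c * QQ c - 1) * BB c ^ (BB c * LL c + 1) := Nat.mul_le_mul_left _ h2
    _ = BB c ^ (BB c * (LL c + QQ c)) := by rw [← pow_add, e1]
    _ = 2 ^ ell c := by rw [ell_eq, BB, ← pow_mul]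

theorem le_el (c u : ℕ) (e : ℤ) : 2 ^ (ell c - 1) ≤ el c u e := by
  have e1 : (BB c * QQ c - 1) + (BB c * LL c) + 1 = BB c * (LL c + QQ c) := by
    have := BQ_pos c
    have : BB c * (LL c + QQ c) = BB c * QQ c + BB c * LL c := by ring
    omega
  have e2 : ell c - 1 = MM c * ((BB c * QQ c - 1) + (BB c * LL c)) + (MM c - 1) := by
    rw [ell_eq, ← e1, Nat.mul_succ]
    have := MM_pos c
    omega
  calc 2 ^ (ell c - 1) = BB c ^ ((BB c * QQ c - 1) + (BB c * LL c)) * PP c := by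
        rw [e2, pow_add, pow_mul]; rfl
    _ = BB c ^ (BB c * QQ c - 1) * (BB c ^ (BB c * LL c) * PP c) := by rw [pow_add]; ring
    _ ≤ BB c ^ (BB c * QQ c - 1) * (u + BB c ^ (BB c * LL c) * PP c) :=
        Nat.mul_le_mul_left _ (Nat.le_add_left _ _)
    _ ≤ el c u e := by unfold el; omega

theorem el_mono (c u u' : ℕ) (e e' : ℤ) (he : |e| ≤ 1) (h : u < u') : el c u e < el c u' e' := by
  have h1 := vv_lt c e he
  calc el c u e < BB c ^ (BB c * QQ c - 1) + BB c ^ (BB c * QQ c - 1) * (u + BB c ^ (BB c * LL c) * PP c) := by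
        unfold el; omega
    _ = BB c ^ (BB c * QQ c - 1) * ((u + 1) + BB c ^ (BB c * LL c) * PP c) := by ring
    _ ≤ BB c ^ (BB c * QQ c - 1) * (u' + BB c ^ (BB c * LL c) * PP c) :=
        Nat.mul_le_mul_left _ (Nat.add_le_add_right h _)
    _ ≤ el c u' e' := by unfold el; omega

/-- scalar products of directions -/
def JJ (c m k : ℕ) : ℤ := ∑ w ∈ range (BB c), GG c w * G (2 ^ m) (MM c / m) k w

theorem el_centred (c u m k : ℕ) (e : ℤ) (he : |e| ≤ 1) (hu : IsBal (BB c) (LL c) u)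
    (hmM : m ∣ MM c) (hk : k < 2 ^ m) :
    (2 ^ m : ℤ) * occ (2 ^ m) (ell c / m) k (el c u e) - (ell c / m : ℕ) = e * JJ c m k := by
  have e0 : (2 ^ m) ^ (MM c / m) = BB c := by
    rw [← pow_mul, Nat.mul_div_cancel' hmM]; rfl
  have e1 : ell c / m = (MM c / m) * (BB c * (LL c + QQ c)) := by
    rw [ell_eq, Nat.mul_comm, Nat.mul_div_assoc _ hmM, Nat.mul_comm]
  have h1 := occ_group_sum (D := 2 ^ m) (by positivity) (MM c / m) (BB c * (LL c + QQ c)) k (el c u e)
  rw [e0] at h1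
  have hs : ∑ w ∈ range (BB c), G (2 ^ m) (MM c / m) k w = 0 := by
    rw [← e0]; exact sum_G hk
  rw [e1, h1]
  unfold JJ
  generalize MM c / m = q at *
  have h2 : ∀ w ∈ range (BB c), (2 ^ m : ℤ) * ((occ (BB c) (BB c * (LL c + QQ c)) w (el c u e) : ℤ) *
      (occ (2 ^ m) q k w : ℤ)) = (LL c + QQ c) * G (2 ^ m) q k w +
      (LL c + QQ c) * q + e * (GG c w * G (2 ^ m) q k w) +
      (e * q) * GG c w := by
    intro w hw
    rw [el_occ c u e he hu w (Finset.mem_range.mp hw)]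
    unfold G
    push_cast
    ring
  push_cast
  rw [Finset.mul_sum, Finset.sum_congr rfl h2, Finset.sum_add_distrib, Finset.sum_add_distrib,
    Finset.sum_add_distrib, ← Finset.mul_sum (f := fun w => G (2 ^ m) q k w),
    ← Finset.mul_sum (f := fun w => GG c w * G (2 ^ m) q k w),
    ← Finset.mul_sum (f := fun w => GG c w), hs, sum_GG,
    Finset.sum_const, Finset.card_range, nsmul_eq_mul]
  ring

end Pool.Agent.H426R3.SN
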