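import Mathlib
import Pool.Agent.H426R3.SN.Cls

set_option autoImplicit false

/-! The sequence of elements and its digits. -/

namespace Pool.Agent.H426R3.SN

open Finset

/-! ### locating an index -/

def loc (N : ℕ → ℕ) (n : ℕ) : ℕ := Nat.findGreatest (fun c => N c ≤ n) n

theorem loc_spec {N : ℕ → ℕ} (h0 : N 0 = 0) (hN : StrictMono N) (n : ℕ) :
    N (loc N n) ≤ n ∧ n < N (loc N n + 1) := by
  have h1 : N (loc N n) ≤ n := by
    have := Nat.findGreatest_spec (P := fun c => N c ≤ n) (Nat.zero_le n) (by simp [h0])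
    exact this
  refine ⟨h1, ?_⟩
  by_contra hcon
  push Not at hcon
  have h2 : loc N n + 1 ≤ n := (hN.id_le _).trans hcon
  have := Nat.le_findGreatest (P := fun c => N c ≤ n) h2 hcon
  unfold loc at this
  omega

theorem loc_eq {N : ℕ → ℕ} (h0 : N 0 = 0) (hN : StrictMono N) {n c : ℕ} (h1 : N c ≤ n)
    (h2 : n < N (c + 1)) : loc N n = c := by
  obtain ⟨h3, h4⟩ := loc_spec h0 hN n
  have h5 : loc N n < c + 1 := hN.lt_iff_lt.mp (h3.trans_lt h2)
  have h6 : c < loc N n + 1 := hN.lt_iff_lt.mp (h1.trans_lt h4)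
  omega

/-! ### class sizes -/

/-- number of elements of full length in class `c` -/
def KK (c : ℕ) : ℕ := ((range (BB c ^ (BB c * LL c))).filter (IsBal (BB c) (LL c))).card

theorem KK_ge (c : ℕ) : BB c ^ (BB c * LL c) ≤ KK c * (LL c + 1) ^ (BB c * BB c) :=
  bal_card (BB c) (LL c) (BB_pos c)

theorem KK_pos (c : ℕ) : 1 ≤ KK c := by
  have h := KK_ge c
  by_contra hcon
  have : KK c = 0 := by omega
  rw [this, zero_mul] at h
  have := Nat.pow_pos (n := BB c * LL c) (BB_pos c)
  omega

theorem KK_le (c : ℕ) : KK c ≤ 2 ^ ell c := by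
  refine (Finset.card_filter_le _ _).trans ?_
  rw [Finset.card_range, ell_eq, BB, ← pow_mul]
  refine Nat.pow_le_pow_right (by norm_num) ?_
  have : LL c ≤ LL c + QQ c := Nat.le_add_right _ _
  exact Nat.mul_le_mul_left _ (Nat.mul_le_mul_left _ this)

/-- the `i`-th balanced word -/
noncomputable def uu (c i : ℕ) : ℕ := Nat.nth (IsBal (BB c) (LL c)) i

theorem bal_finite (c : ℕ) : (Set.ofPred (IsBal (BB c) (LL c))).Finite :=
  (Set.finite_Iio (BB c ^ (BB c * LL c))).subset fun _ h => h.1

theorem bal_card_eq (c : ℕ) : (bal_finite c).toFinset.card = KK c := by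
  unfold KK
  congr 1
  ext u
  simp only [Set.Finite.mem_toFinset, Set.mem_ofPred_eq, Finset.mem_filter, Finset.mem_range]
  exact ⟨fun h => ⟨h.1, h⟩, fun h => h.2⟩

theorem uu_bal {c i : ℕ} (hi : i < KK c) : IsBal (BB c) (LL c) (uu c i) :=
  Nat.nth_mem_of_lt_card (bal_finite c) (by rw [bal_card_eq]; exact hi)

theorem uu_lt {c i j : ℕ} (hij : i < j) (hj : j < KK c) : uu c i < uu c j :=
  Nat.nth_lt_nth_of_lt_card (bal_finite c) hij (by rw [bal_card_eq]; exact hj)

attribute [local irreducible] KK mu MM BB QQ UU ell LL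

/-! ### offsets -/

/-- length of the adjusting element -/
def ee (c t : ℕ) : ℕ := (c + 16) ^ 3 - (t + (c + 16) ^ 3) % MM c

def tt : ℕ → ℕ
  | 0 => 0
  | c + 1 => tt c + ee c (tt c) + KK c * ell c

/-- position of the first full length element of class `c` -/
def ss (c : ℕ) : ℕ := tt c + ee c (tt c)

theorem tt_succ (c : ℕ) : tt (c + 1) = ss c + KK c * ell c := rfl

theorem mod_lt' (c t : ℕ) : (t + (c + 16) ^ 3) % MM c < c + 16 :=
  (Nat.mod_lt _ (MM_pos c)).trans_le (MM_le c)

theorem le_cube (c : ℕ) : c + 16 ≤ (c + 16) ^ 3 := by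
  calc c + 16 = (c + 16) ^ 1 := (pow_one _).symm
      _ ≤ (c + 16) ^ 3 := Nat.pow_le_pow_right (by omega) (by norm_num)

theorem ee_le (c t : ℕ) : ee c t ≤ (c + 16) ^ 3 := Nat.sub_le _ _

theorem ee_add (c t : ℕ) : ee c t + (t + (c + 16) ^ 3) % MM c = (c + 16) ^ 3 := by
  have h1 := mod_lt' c t
  have h2 := le_cube c
  unfold ee
  omega

theorem ee_lt_ell (c t : ℕ) : ee c t < ell c := (ee_le c t).trans_lt (ell_gt c)

theorem ell_lt_ee (c t : ℕ) : ell c < ee (c + 1) t := by
  have h1 := mod_lt' (c + 1) t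
  have h2 := ee_add (c + 1) t
  have h3 := ell_le c
  have h4 : (c + 1 + 16) ^ 3 = (c + 16) ^ 3 + 3 * (c + 16) ^ 2 + 3 * (c + 16) + 1 := by ring
  nlinarith

theorem ee_pos (c t : ℕ) : 1 ≤ ee c t := by
  have h1 := mod_lt' c t
  have h2 := ee_add c t
  have h4 : c + 16 < (c + 16) ^ 3 := by
    calc c + 16 = (c + 16) ^ 1 := (pow_one _).symm
      _ < (c + 16) ^ 3 := Nat.pow_lt_pow_right (by omega) (by norm_num)
  omega

theorem MM_dvd_ss (c : ℕ) : MM c ∣ ss c := by
  have h1 := ee_add c (tt c)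
  have h2 := Nat.div_add_mod (tt c + (c + 16) ^ 3) (MM c)
  refine ⟨(tt c + (c + 16) ^ 3) / MM c, ?_⟩
  unfold ss
  omega

theorem le_ss (c : ℕ) : tt c ≤ ss c := Nat.le_add_right _ _

def NN : ℕ → ℕ
  | 0 => 0
  | c + 1 => NN c + (KK c + 1)

theorem NN_strictMono : StrictMono NN := strictMono_nat_of_lt_succ fun c => by
  simp only [NN]; omega

/-! ### amplitudes -/

noncomputable def Lam (c : ℕ) : ℝ := Real.sqrt (2 * (ss c : ℝ) * Real.log (Real.log (ss c : ℝ)))

noncomputable def nrm (c : ℕ) : ℝ := (BB c : ℝ) * MM c * Real.sqrt (((2 : ℝ) ^ gm c - 1) / gm c)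

noncomputable def AA (c : ℕ) : ℕ := min (⌊Lam c / nrm c⌋₊) (KK c / 2)

def tent (A i : ℕ) : ℕ := min i (2 * A - i)

theorem tent_step (A i : ℕ) : |((tent A (i + 1) : ℤ) - tent A i)| ≤ 1 := by
  unfold tent
  rw [abs_le]
  rcases Nat.lt_or_ge i A with h | h
  · rw [min_eq_left (by omega), min_eq_left (by omega)]; push_cast; constructor <;> linarith
  · rcases Nat.lt_or_ge i (2 * A) with h2 | h2
    · rw [min_eq_right (by omega), min_eq_right (by omega)]
      have e1 : ((2 * A - (i + 1) : ℕ) : ℤ) = 2 * A - i - 1 := by omega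
      have e2 : ((2 * A - i : ℕ) : ℤ) = 2 * A - i := by omega
      rw [e1, e2]
      constructor <;> linarith
    · rw [min_eq_right (by omega), min_eq_right (by omega), Nat.sub_eq_zero_of_le (by omega),
        Nat.sub_eq_zero_of_le (by omega)]
      simp

theorem tent_le (A i : ℕ) : tent A i ≤ A := by unfold tent; omega

theorem tent_zero (A : ℕ) : tent A 0 = 0 := by simp [tent]

theorem tent_end {A i : ℕ} (h : 2 * A ≤ i) : tent A i = 0 := by unfold tent; omega

theorem tent_top (A : ℕ) : tent A A = A := by unfold tent; omega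

noncomputable def eps (c i : ℕ) : ℤ := gs c * ((tent (AA c) (i + 1) : ℤ) - tent (AA c) i)

theorem eps_abs (c i : ℕ) : |eps c i| ≤ 1 := by
  unfold eps
  rw [abs_mul, gs_abs, one_mul]
  exact tent_step _ _

/-! ### the sequence -/

noncomputable def elem (c : ℕ) : ℕ → ℕ
  | 0 => 2 ^ (ee c (tt c) - 1)
  | i + 1 => el c (uu c i) (eps c i)

noncomputable def aa (n : ℕ) : ℕ := elem (loc NN n) (n - NN (loc NN n))

theorem aa_eq {c i : ℕ} (hi : i ≤ KK c) : aa (NN c + i) = elem c i := by
  have h : loc NN (NN c + i) = c := loc_eq rfl NN_strictMono (Nat.le_add_right _ _) (by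
    simp only [NN]; omega)
  unfold aa
  rw [h, Nat.add_sub_cancel_left]

/-- the number of bits of the `i`-th element of class `c` -/
def bl (c : ℕ) : ℕ → ℕ
  | 0 => ee c (tt c)
  | _ + 1 => ell c

theorem bl_pos (c i : ℕ) : 1 ≤ bl c i := by
  cases i with
  | zero => exact ee_pos _ _
  | succ i => exact (Nat.succ_le_iff.mpr ((Nat.zero_le _).trans_lt (ee_lt_ell c 0)))

theorem elem_lt {c i : ℕ} (hi : i ≤ KK c) : elem c i < 2 ^ bl c i := by
  cases i with
  | zero =>
    simp only [elem, bl]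
    exact Nat.pow_lt_pow_right (by norm_num) (by have := ee_pos c (tt c); omega)
  | succ i => exact el_lt c _ _ (eps_abs c i) (uu_bal (by omega))

theorem le_elem (c i : ℕ) : 2 ^ (bl c i - 1) ≤ elem c i := by
  cases i with
  | zero => exact le_rfl
  | succ i => exact le_el c _ _

theorem elem_pos (c i : ℕ) : 0 < elem c i := lt_of_lt_of_le (by positivity) (le_elem c i)

theorem aa_strictMono : StrictMono aa := by
  refine strictMono_nat_of_lt_succ fun n => ?_
  obtain ⟨h1, h2⟩ := loc_spec (N := NN) rfl NN_strictMono n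
  generalize loc NN n = c at h1 h2
  obtain ⟨i, rfl⟩ := Nat.exists_eq_add_of_le h1
  have hi : i ≤ KK c := by simp only [NN] at h2; omega
  rw [aa_eq hi]
  rcases Nat.lt_or_ge i (KK c) with h | h
  · rw [Nat.add_assoc, aa_eq (c := c) (i := i + 1) h]
    cases i with
    | zero =>
      calc elem c 0 < 2 ^ ee c (tt c) := elem_lt hi
        _ ≤ 2 ^ (ell c - 1) := Nat.pow_le_pow_right (by norm_num) (by
            have := ee_lt_ell c (tt c); omega)
        _ ≤ elem c (0 + 1) := le_elem c 1
    | succ i => exact el_mono c _ _ _ _ (eps_abs c i) (uu_lt (Nat.lt_succ_self i) h)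
  · have hiK : i = KK c := le_antisymm hi h
    subst hiK
    have e : NN c + KK c + 1 = NN (c + 1) + 0 := by simp only [NN]; omega
    rw [e, aa_eq (Nat.zero_le _)]
    have hK := KK_pos c
    calc elem c (KK c) < 2 ^ bl c (KK c) := elem_lt le_rfl
      _ = 2 ^ ell c := by
          obtain ⟨j, hj⟩ := Nat.exists_eq_succ_of_ne_zero (Nat.pos_iff_ne_zero.mp hK)
          rw [hj]; rfl
      _ ≤ 2 ^ (ee (c + 1) (tt (c + 1)) - 1) := Nat.pow_le_pow_right (by norm_num) (by
            have := ell_lt_ee c (tt (c + 1)); omega)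
      _ = elem (c + 1) 0 := rfl

theorem aa_pos (n : ℕ) : 0 < aa n := elem_pos _ _

theorem aa_bits {c i : ℕ} (hi : i ≤ KK c) : (Nat.digits 2 (aa (NN c + i))).length = bl c i := by
  rw [aa_eq hi]
  have h1 := elem_lt hi
  have h2 := le_elem c i
  have h3 := bl_pos c i
  rw [Nat.length_digits 2 _ (by norm_num) (elem_pos c i).ne']
  have : Nat.log 2 (elem c i) = bl c i - 1 := by
    rw [Nat.log_eq_iff (Or.inr ⟨by norm_num, (elem_pos c i).ne'⟩)]
    refine ⟨h2, ?_⟩
    rwa [Nat.sub_add_cancel h3]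
  omega

noncomputable def len (n : ℕ) : ℕ := (Nat.digits 2 (aa n)).length

noncomputable def OO (n : ℕ) : ℕ := ∑ j ∈ range n, len j

theorem len_pos (n : ℕ) : 1 ≤ len n := by
  unfold len
  rw [Nat.length_digits 2 _ (by norm_num) (aa_pos n).ne']
  omega

theorem aa_lt (n : ℕ) : aa n < 2 ^ len n := Nat.lt_base_pow_length_digits (by norm_num)

theorem OO_zero : OO 0 = 0 := by simp [OO]

theorem OO_succ (n : ℕ) : OO (n + 1) = OO n + len n := Finset.sum_range_succ _ _

theorem OO_strictMono : StrictMono OO := strictMono_nat_of_lt_succ fun n => by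
  rw [OO_succ]; have := len_pos n; omega

theorem OO_class (c : ℕ) : OO (NN c) = tt c ∧ ∀ i ≤ KK c, OO (NN c + 1 + i) = ss c + i * ell c := by
  have step : ∀ c, OO (NN c) = tt c → ∀ i ≤ KK c, OO (NN c + 1 + i) = ss c + i * ell c := by
    intro c hc i
    induction i with
    | zero =>
      intro _
      rw [add_zero, OO_succ, hc, zero_mul, add_zero]
      have := aa_bits (c := c) (i := 0) (Nat.zero_le _)
      rw [add_zero] at this
      unfold len
      rw [this]; rfl
    | succ i ih =>
      intro hi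
      rw [← add_assoc, OO_succ, ih (by omega)]
      have := aa_bits (c := c) (i := i + 1) hi
      unfold len
      rw [show NN c + 1 + i = NN c + (i + 1) by ring, this]
      simp only [bl]
      ring
  have h0 : OO (NN 0) = tt 0 := by rw [show NN 0 = 0 from rfl, show tt 0 = 0 from rfl, OO_zero]
  induction c with
  | zero => exact ⟨h0, step 0 h0⟩
  | succ c ih =>
    have h : OO (NN (c + 1)) = tt (c + 1) := by
      have := ih.2 (KK c) le_rfl
      rw [tt_succ, ← this]
      congr 1
      simp only [NN]; ring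
    exact ⟨h, step (c + 1) h⟩

/-! ### digits -/

noncomputable def dd (x : ℕ) : ℕ := aa (loc OO x) / 2 ^ (OO (loc OO x + 1) - 1 - x) % 2

theorem dd_eq {n r : ℕ} (hr : r < len n) : dd (OO n + r) = aa n / 2 ^ (len n - 1 - r) % 2 := by
  have h : loc OO (OO n + r) = n := loc_eq OO_zero OO_strictMono (Nat.le_add_right _ _) (by
    rw [OO_succ]; omega)
  unfold dd
  rw [h, OO_succ]
  congr 3
  omega

theorem dd_getD {n r : ℕ} (hr : r < len n) :
    dd (OO n + r) = ((Nat.digits 2 (aa n)).reverse).getD r 0 := by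
  rw [dd_eq hr, List.getD_reverse _ hr, Nat.getD_digits _ _ (by norm_num)]
  rfl

noncomputable def VV : ℕ → ℕ
  | 0 => 0
  | x + 1 => 2 * VV x + dd x

theorem VV_elem (n r : ℕ) (hr : r ≤ len n) :
    VV (OO n + r) = 2 ^ r * VV (OO n) + aa n / 2 ^ (len n - r) := by
  induction r with
  | zero => simp [Nat.div_eq_of_lt (aa_lt n)]
  | succ r ih =>
    rw [← add_assoc, VV, ih (by omega), dd_eq (by omega)]
    have e : aa n / 2 ^ (len n - r) = aa n / 2 ^ (len n - (r + 1)) / 2 := by
      rw [Nat.div_div_eq_div_mul, ← pow_succ]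
      congr 2
      omega
    have e2 : len n - 1 - r = len n - (r + 1) := by omega
    rw [e, e2]
    have := Nat.div_add_mod (aa n / 2 ^ (len n - (r + 1))) 2
    rw [pow_succ]
    nlinarith

/-- block count -/
noncomputable def CC (m k n : ℕ) : ℕ := ((range n).filter (fun i => VV (m * (i + 1)) % 2 ^ m = k)).card

theorem CC_succ (m k n : ℕ) : CC m k (n + 1) = CC m k n + if VV (m * (n + 1)) % 2 ^ m = k then 1 else 0 := by
  unfold CC
  rw [Finset.range_add_one, Finset.filter_insert]
  split_ifs with h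
  · rw [Finset.card_insert_of_notMem (by simp)]
  · rfl

theorem CC_elem {m n : ℕ} (k : ℕ) (h1 : m ∣ OO n) (h2 : m ∣ len n) (hm : 1 ≤ m) :
    CC m k (OO n / m + len n / m) = CC m k (OO n / m) + occ (2 ^ m) (len n / m) k (aa n) := by
  obtain ⟨s, hs⟩ := h1
  obtain ⟨h, hh⟩ := h2
  have e1 : OO n / m = s := by rw [hs, Nat.mul_div_cancel_left _ hm]
  have e2 : len n / m = h := by rw [hh, Nat.mul_div_cancel_left _ hm]
  rw [e1, e2, occ_eq_sum, ← Finset.sum_range_reflect]
  have key : ∀ j ≤ h, CC m k (s + j) = CC m k s +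
      ∑ i ∈ range j, if aa n / (2 ^ m) ^ (h - 1 - i) % 2 ^ m = k then 1 else 0 := by
    intro j
    induction j with
    | zero => simp
    | succ j ih =>
      intro hj
      rw [← add_assoc, CC_succ, ih (by omega), Finset.sum_range_succ, add_assoc]
      congr 2
      have e3 : m * (s + j + 1) = OO n + m * (j + 1) := by rw [hs]; ring
      have e4 : m * (j + 1) ≤ len n := by rw [hh]; exact Nat.mul_le_mul_left _ hj
      have e5 : len n - m * (j + 1) = m * (h - 1 - j) := by
        rw [hh, ← Nat.mul_sub]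
        congr 1
        omega
      rw [e3, VV_elem n _ e4, e5, pow_mul 2 m (h - 1 - j)]
      have e6 : (2 ^ (m * (j + 1)) * VV (OO n) + aa n / (2 ^ m) ^ (h - 1 - j)) % 2 ^ m =
          aa n / (2 ^ m) ^ (h - 1 - j) % 2 ^ m := by
        rw [Nat.mul_succ, add_comm (m * j) m, pow_add, mul_assoc, Nat.mul_add_mod]
      rw [e6]
  exact key h le_rfl

/-- scaled discrepancy -/
noncomputable def Del (m k n : ℕ) : ℤ := 2 ^ m * CC m k n - n

theorem Del_class {m c i : ℕ} (k : ℕ) (hm : 1 ≤ m) (hmM : m ∣ MM c) (hk : k < 2 ^ m) (hi : i ≤ KK c) :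
    Del m k (ss c / m + i * (ell c / m)) = Del m k (ss c / m) + gs c * tent (AA c) i * JJ c m k := by
  induction i with
  | zero => simp [tent_zero]
  | succ i ih =>
    have h1 := ih (by omega)
    have h2 := (OO_class c).2 i (by omega)
    have h3 : m ∣ ss c := hmM.trans (MM_dvd_ss c)
    have h4 : m ∣ ell c := hmM.trans (MM_dvd_ell c)
    have h5 : len (NN c + 1 + i) = ell c := by
      unfold len
      rw [show NN c + 1 + i = NN c + (i + 1) by ring, aa_bits hi]
      rfl
    have h6 := CC_elem (m := m) (n := NN c + 1 + i) k (by rw [h2]; exact dvd_add h3 (h4.mul_left i))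
      (by rw [h5]; exact h4) hm
    have h7 : OO (NN c + 1 + i) / m = ss c / m + i * (ell c / m) := by
      rw [h2, Nat.add_div_of_dvd_right h3, Nat.mul_div_assoc _ h4]
    have h8 : aa (NN c + 1 + i) = el c (uu c i) (eps c i) := by
      rw [show NN c + 1 + i = NN c + (i + 1) by ring, aa_eq hi]
      rfl
    rw [h7, h5, h8] at h6
    have h9 := el_centred c (uu c i) m k (eps c i) (eps_abs c i) (uu_bal (by omega)) hmM hk
    unfold Del at h1 ⊢
    rw [show ss c / m + (i + 1) * (ell c / m) = ss c / m + i * (ell c / m) + ell c / m by ring, h6]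
    push_cast at h1 h9 ⊢
    have e10 : eps c i * JJ c m k = gs c * tent (AA c) (i + 1) * JJ c m k -
        gs c * tent (AA c) i * JJ c m k := by
      unfold eps; ring
    linarith

theorem Del_lip (m k n h : ℕ) : |Del m k (n + h) - Del m k n| ≤ 2 ^ m * h := by
  induction h with
  | zero => simp
  | succ h ih =>
    have h1 : |Del m k (n + (h + 1)) - Del m k (n + h)| ≤ 2 ^ m := by
      unfold Del
      rw [← add_assoc, CC_succ]
      have h2 : (1 : ℤ) ≤ 2 ^ m := one_le_pow₀ (by norm_num)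
      split_ifs
      · push_cast
        rw [abs_le]
        constructor <;> linarith
      · push_cast
        rw [abs_le]
        constructor <;> linarith
    have h3 : Del m k (n + (h + 1)) - Del m k n = (Del m k (n + (h + 1)) - Del m k (n + h)) +
        (Del m k (n + h) - Del m k n) := by ring
    rw [h3]
    refine (abs_add_le _ _).trans ?_
    push_cast
    linarith

end Pool.Agent.H426R3.SN
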