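import Mathlib
import Pool.Agent.H426R3.SN.Seq

set_option autoImplicit false

/-! Size estimates. -/

namespace Pool.Agent.H426R3.SN

open Finset

attribute [local irreducible] KK mu MM BB QQ UU ell LL

theorem cube_le_two_pow (c : ℕ) : (c + 16) ^ 3 + 2 ≤ 2 ^ (c + 16) := by
  induction c with
  | zero => norm_num
  | succ c ih =>
    have : (c + 1 + 16) ^ 3 + 2 ≤ 2 * ((c + 16) ^ 3 + 2) := by
      nlinarith [sq_nonneg (c + 16 : ℤ), Nat.zero_le c, Nat.zero_le (c ^ 2), Nat.zero_le (c ^ 3)]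
    calc (c + 1 + 16) ^ 3 + 2 ≤ 2 * ((c + 16) ^ 3 + 2) := this
      _ ≤ 2 * 2 ^ (c + 16) := Nat.mul_le_mul_left _ ih
      _ = 2 ^ (c + 1 + 16) := by ring

theorem KK_lower (c : ℕ) : 2 ^ ell c ≤ KK c * 2 ^ ((c + 16) + (c + 16) ^ 2) := by
  have h1 := KK_ge c
  have h2 : ell c = MM c * (BB c * LL c) + UU c * QQ c := by
    rw [ell_eq]
    have : UU c = MM c * BB c := by unfold UU; rfl
    rw [this]; ring
  have h3 : BB c ^ (BB c * LL c) = 2 ^ (MM c * (BB c * LL c)) := by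
    have : BB c = 2 ^ MM c := by unfold BB; rfl
    rw [pow_mul 2 (MM c), ← this]
  have h4 : (LL c + 1) ^ (BB c * BB c) ≤ 2 ^ ((c + 16) ^ 2) := by
    have h5 : LL c + 1 ≤ 2 ^ (c + 16) := by
      have := LL_le c
      have := cube_le_two_pow c
      omega
    calc (LL c + 1) ^ (BB c * BB c) ≤ (2 ^ (c + 16)) ^ (BB c * BB c) := Nat.pow_le_pow_left h5 _
      _ ≤ (2 ^ (c + 16)) ^ (c + 16) := Nat.pow_le_pow_right (by positivity) (BB_sq_le c)
      _ = 2 ^ ((c + 16) ^ 2) := by rw [← pow_mul]; congr 1; ring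
  calc 2 ^ ell c = 2 ^ (UU c * QQ c) * 2 ^ (MM c * (BB c * LL c)) := by rw [h2, pow_add]; ring
    _ ≤ 2 ^ (c + 16) * (KK c * (LL c + 1) ^ (BB c * BB c)) := by
        refine Nat.mul_le_mul (Nat.pow_le_pow_right (by norm_num) (UQ_le c)) ?_
        rw [← h3]; exact h1
    _ ≤ 2 ^ (c + 16) * (KK c * 2 ^ ((c + 16) ^ 2)) :=
        Nat.mul_le_mul_left _ (Nat.mul_le_mul_left _ h4)
    _ = _ := by rw [pow_add 2 (c + 16) ((c + 16) ^ 2), Nat.mul_left_comm]

theorem KK_lower' (c : ℕ) : 2 ^ (ell c - (c + 16) - (c + 16) ^ 2) ≤ KK c := by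
  have h := KK_lower c
  have h2 : (c + 16) + (c + 16) ^ 2 ≤ ell c := by
    have := ell_gt c
    nlinarith
  have h3 : ell c = (ell c - (c + 16) - (c + 16) ^ 2) + ((c + 16) + (c + 16) ^ 2) := by omega
  rw [h3, pow_add] at h
  have h4 : 2 ^ (ell c - (c + 16) - (c + 16) ^ 2) * 2 ^ ((c + 16) + (c + 16) ^ 2) ≤
      KK c * 2 ^ ((c + 16) + (c + 16) ^ 2) := by
    convert h using 3
  exact Nat.le_of_mul_le_mul_right h4 (by positivity)

theorem ss_succ (c : ℕ) : ss (c + 1) = ss c + KK c * ell c + ee (c + 1) (tt (c + 1)) := rfl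

theorem ell_step (c : ℕ) : ell c + 2 * (c + 16) ^ 2 ≤ ell (c + 1) := by
  have h1 := ell_le c
  have h2 := ell_gt (c + 1)
  nlinarith

theorem ell_strictMono : StrictMono ell := strictMono_nat_of_lt_succ fun c => by
  have := ell_step c
  have : 0 < (c + 16) ^ 2 := by positivity
  omega

theorem ss_zero {z : ℕ} (hz : z = 0) : ss z = ee z (tt z) := by
  have h : tt z = 0 := by rw [hz]; rfl
  unfold ss
  rw [h, zero_add]

theorem ss_le_zero {z : ℕ} (hz : z = 0) : ss z ≤ 2 ^ ell z := by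
  rw [ss_zero hz]
  exact (ee_lt_ell z _).le.trans Nat.lt_two_pow_self.le

theorem ss_ge_zero {z : ℕ} (hz : z = 0) : 2 ^ (z + 3) ≤ ss z := by
  have h1 := ee_add z (tt z)
  have h2 := mod_lt' z (tt z)
  rw [ss_zero hz]
  generalize ee z (tt z) = e at *
  generalize (tt z + (z + 16) ^ 3) % MM z = r at *
  subst hz
  norm_num at h1 h2 ⊢
  omega

theorem ss_le (c : ℕ) : ss c ≤ 2 ^ ell c := by
  induction c with
  | zero => exact ss_le_zero rfl
  | succ c ih =>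
    have h1 := KK_le c
    have h2 := ee_lt_ell (c + 1) (tt (c + 1))
    have h3 := ell_step c
    have h4 := ell_le c
    have h5 := cube_le_two_pow c
    have h6 := ell_le (c + 1)
    have h7 : ell c + 1 ≤ 2 ^ (c + 17) := by
      have : c + 16 ≤ (c + 16) ^ 3 := le_cube c
      calc ell c + 1 ≤ 2 * ((c + 16) ^ 3 + 2) := by omega
        _ ≤ 2 * 2 ^ (c + 16) := by omega
        _ = 2 ^ (c + 17) := by ring
    have h8 : ell (c + 1) ≤ 2 ^ (c + 18) := by
      have : (c + 1) + 16 ≤ ((c + 1) + 16) ^ 3 := le_cube (c + 1)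
      have h9 := cube_le_two_pow (c + 1)
      calc ell (c + 1) ≤ 2 * ((c + 1 + 16) ^ 3 + 2) := by omega
        _ ≤ 2 * 2 ^ (c + 1 + 16) := by omega
        _ = 2 ^ (c + 18) := by ring
    rw [ss_succ]
    have h10 : ss c + KK c * ell c ≤ 2 ^ ell c * 2 ^ (c + 17) := by
      calc ss c + KK c * ell c ≤ 2 ^ ell c + 2 ^ ell c * ell c :=
            Nat.add_le_add ih (Nat.mul_le_mul_right _ h1)
        _ = 2 ^ ell c * (ell c + 1) := by ring
        _ ≤ _ := Nat.mul_le_mul_left _ h7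
    have h11 : ee (c + 1) (tt (c + 1)) ≤ 2 ^ ell c * 2 ^ (c + 18) := by
      calc ee (c + 1) (tt (c + 1)) ≤ ell (c + 1) := h2.le
        _ ≤ 2 ^ (c + 18) := h8
        _ ≤ 2 ^ ell c * 2 ^ (c + 18) := Nat.le_mul_of_pos_left _ (by positivity)
    calc ss c + KK c * ell c + ee (c + 1) (tt (c + 1)) ≤ 2 ^ ell c * 2 ^ (c + 17) + 2 ^ ell c * 2 ^ (c + 18) :=
          Nat.add_le_add h10 h11
      _ = 2 ^ ell c * (3 * 2 ^ (c + 17)) := by ring
      _ ≤ 2 ^ ell c * 2 ^ (c + 19) := Nat.mul_le_mul_left _ (by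
          have : 2 ^ (c + 19) = 4 * 2 ^ (c + 17) := by ring
          omega)
      _ = 2 ^ (ell c + (c + 19)) := (pow_add 2 (ell c) (c + 19)).symm
      _ ≤ 2 ^ ell (c + 1) := Nat.pow_le_pow_right (by norm_num) (by nlinarith)

theorem KK_big (c : ℕ) : 2 ^ (c + 16) ≤ KK c := by
  refine le_trans (Nat.pow_le_pow_right (by norm_num) ?_) (KK_lower' c)
  have h := ell_gt c
  have : (c + 16) ^ 3 ≥ 16 * (c + 16) ^ 2 := by
    rw [pow_succ (c + 16) 2, mul_comm]
    exact Nat.mul_le_mul_right _ (by omega)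
  have : (c + 16) ^ 2 ≥ 16 * (c + 16) := by nlinarith
  omega

theorem ss_ge (c : ℕ) : 2 ^ (c + 3) ≤ ss c := by
  cases c with
  | zero => exact ss_ge_zero rfl
  | succ c =>
    rw [ss_succ]
    have h1 := KK_big c
    have h2 : 1 ≤ ell c := (Nat.zero_le _).trans_lt (ell_gt c)
    calc 2 ^ (c + 1 + 3) ≤ 2 ^ (c + 16) := Nat.pow_le_pow_right (by norm_num) (by omega)
      _ ≤ KK c := h1
      _ ≤ KK c * ell c := Nat.le_mul_of_pos_right _ h2
      _ ≤ _ := by omega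

/-- counting the elements -/
theorem aa_lt_of_lt {c n : ℕ} (hn : n < NN (c + 1)) : aa n < 2 ^ ell c := by
  have h1 : n ≤ NN c + KK c := by simp only [NN] at hn; omega
  refine (aa_strictMono.monotone h1).trans_lt ?_
  rw [aa_eq le_rfl]
  refine (elem_lt le_rfl).trans_le ?_
  obtain ⟨j, hj⟩ := Nat.exists_eq_succ_of_ne_zero (Nat.pos_iff_ne_zero.mp (KK_pos c))
  rw [hj]; exact le_rfl

theorem card_ge {c N : ℕ} (hN : 2 ^ ell c ≤ N) : KK c ≤ Nat.card {n : ℕ | aa n ≤ N} := by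
  have hfin : {n : ℕ | aa n ≤ N}.Finite :=
    (Set.finite_Iic N).subset fun n hn => (aa_strictMono.id_le n).trans hn
  have h1 : ((range (NN (c + 1)) : Finset ℕ) : Set ℕ) ⊆ {n : ℕ | aa n ≤ N} := by
    intro n hn
    have hn' : n < NN (c + 1) := by simpa using hn
    exact (aa_lt_of_lt hn').le.trans hN
  have h2 := Set.ncard_le_ncard h1 hfin
  rw [Set.ncard_coe_finset, Finset.card_range] at h2
  have h3 : KK c ≤ NN (c + 1) := by simp only [NN]; omega
  exact h3.trans h2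

theorem growth (θ : ℝ) (hθ : θ < 1) : ∀ᶠ N : ℕ in Filter.atTop,
    (N : ℝ) ^ θ < (Nat.card {n : ℕ | aa n ≤ N} : ℝ) := by
  set θ' := max θ (1 / 2) with hθ'
  have hθ1 : θ' < 1 := max_lt hθ (by norm_num)
  have hθ0 : 0 < θ' := lt_of_lt_of_le (by norm_num) (le_max_right _ _)
  obtain ⟨c1, hc1⟩ := exists_nat_gt (12 / (1 - θ'))
  filter_upwards [Filter.eventually_ge_atTop (2 ^ ell c1)] with N hN
  have hN1 : (1 : ℝ) ≤ N := by
    have : 1 ≤ N := le_trans Nat.one_le_two_pow hN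
    exact_mod_cast this
  -- locate N
  have hex : ∃ c, c1 ≤ c ∧ 2 ^ ell c ≤ N ∧ N < 2 ^ ell (c + 1) := by
    have hP : ∃ j, N < 2 ^ ell (c1 + j + 1) := by
      refine ⟨N, ?_⟩
      have h1 : N < 2 ^ N := Nat.lt_two_pow_self
      refine h1.trans_le (Nat.pow_le_pow_right (by norm_num) ?_)
      have := ell_strictMono.id_le (c1 + N + 1)
      simp only [id] at this
      omega
    let j := Nat.find hP
    have hj : N < 2 ^ ell (c1 + j + 1) := Nat.find_spec hP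
    refine ⟨c1 + j, by omega, ?_, hj⟩
    rcases Nat.eq_zero_or_pos j with h0 | h0
    · rw [h0]; exact hN
    · have := Nat.find_min hP (m := j - 1) (by show j - 1 < j; omega)
      push Not at this
      have e : c1 + (j - 1) + 1 = c1 + j := by omega
      rwa [e] at this
  obtain ⟨c, hc, hN2, hN3⟩ := hex
  have h1 := card_ge hN2
  have h2 := KK_lower' c
  have h3 := ell_le (c + 1)
  have h4 := ell_gt c
  have h5 : (N : ℝ) ^ θ ≤ (N : ℝ) ^ θ' := Real.rpow_le_rpow_of_exponent_le hN1 (le_max_left _ _)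
  have h6 : (N : ℝ) ^ θ' < ((2 : ℝ) ^ (ell (c + 1) : ℝ)) ^ θ' := by
    refine Real.rpow_lt_rpow (by linarith) ?_ hθ0
    rw [Real.rpow_natCast]
    exact_mod_cast hN3
  rw [← Real.rpow_mul (by norm_num)] at h6
  have h7 : (ell (c + 1) : ℝ) * θ' ≤ (ell c : ℝ) - (c + 16) - (c + 16) ^ 2 := by
    have h8 : (ell (c + 1) : ℝ) ≤ (c + 17 : ℝ) ^ 3 + (c + 17) := by
      have : ((ell (c + 1) : ℕ) : ℝ) ≤ (((c + 1 + 16) ^ 3 + (c + 1 + 16) : ℕ) : ℝ) := by exact_mod_cast h3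
      push_cast at this
      have e : (c : ℝ) + 1 + 16 = c + 17 := by ring
      rw [e] at this
      exact this
    have h9 : ((c : ℝ) + 16) ^ 3 ≤ ell c := by
      have : (((c + 16) ^ 3 : ℕ) : ℝ) ≤ ((ell c : ℕ) : ℝ) := by exact_mod_cast h4.le
      push_cast at this
      exact this
    have h10 : 12 ≤ (1 - θ') * (c + 16) := by
      have : 12 / (1 - θ') < (c : ℝ) := lt_of_lt_of_le hc1 (by exact_mod_cast hc)
      rw [div_lt_iff₀ (by linarith)] at this
      nlinarith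
    have hc0 : (0 : ℝ) ≤ c := Nat.cast_nonneg c
    have h11 : (ell (c + 1) : ℝ) * θ' ≤ ((c + 17 : ℝ) ^ 3 + (c + 17)) * θ' :=
      mul_le_mul_of_nonneg_right h8 hθ0.le
    set X : ℝ := (c : ℝ) + 16 with hX
    have hX16 : 16 ≤ X := by linarith
    have e1 : (c : ℝ) + 17 = X + 1 := by rw [hX]; ring
    rw [e1] at h11
    have h12 : (12 : ℝ) * X ^ 2 ≤ (1 - θ') * X * X ^ 2 := mul_le_mul_of_nonneg_right h10 (by positivity)
    have h13 : ((X + 1) ^ 3 + (X + 1)) * θ' = X ^ 3 * θ' + (3 * X ^ 2 + 4 * X + 2) * θ' := by ring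
    have h14 : (3 * X ^ 2 + 4 * X + 2) * θ' ≤ (3 * X ^ 2 + 4 * X + 2) * 1 :=
      mul_le_mul_of_nonneg_left hθ1.le (by positivity)
    nlinarith
  have h15 : (2 : ℝ) ^ ((ell (c + 1) : ℝ) * θ') ≤ (KK c : ℝ) := by
    have h16 : (2 : ℝ) ^ ((ell (c + 1) : ℝ) * θ') ≤ (2 : ℝ) ^ ((ell c : ℝ) - (c + 16) - (c + 16) ^ 2) :=
      Real.rpow_le_rpow_of_exponent_le (by norm_num) h7
    refine h16.trans ?_
    have h17 : ((ell c - (c + 16) - (c + 16) ^ 2 : ℕ) : ℝ) = (ell c : ℝ) - (c + 16) - (c + 16) ^ 2 := by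
      have h18 : (c + 16) + (c + 16) ^ 2 ≤ ell c := by nlinarith
      rw [Nat.cast_sub (by omega), Nat.cast_sub (by omega)]
      push_cast
      ring
    rw [← h17, Real.rpow_natCast]
    exact_mod_cast h2
  calc (N : ℝ) ^ θ ≤ (N : ℝ) ^ θ' := h5
    _ < _ := h6
    _ ≤ (KK c : ℝ) := h15
    _ ≤ _ := by exact_mod_cast h1

end Pool.Agent.H426R3.SN
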