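import Mathlib

set_option autoImplicit false

/-! The iterated logarithm normaliser. -/

namespace Pool.Agent.H426R3.SN

open Filter Topology

noncomputable def phi (s : ℝ) : ℝ := Real.sqrt (2 * s * Real.log (Real.log s))

theorem ll_ratio (a : ℝ) (ha : 0 < a) :
    Tendsto (fun s : ℝ => Real.log (Real.log (a * s)) / Real.log (Real.log s)) atTop (𝓝 1) := by
  have h1 : Tendsto (fun y : ℝ => Real.log (y + Real.log a) / Real.log y) atTop (𝓝 1) := by
    have h2 : Tendsto (fun y : ℝ => 1 + Real.log (1 + Real.log a / y) / Real.log y) atTop (𝓝 1) := by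
      have h3 : Tendsto (fun y : ℝ => Real.log (1 + Real.log a / y)) atTop (𝓝 0) := by
        have h4 : Tendsto (fun y : ℝ => 1 + Real.log a / y) atTop (𝓝 (1 + 0)) :=
          tendsto_const_nhds.add (tendsto_const_nhds.div_atTop tendsto_id)
        rw [add_zero] at h4
        have := h4.log (by norm_num)
        simpa using this
      have h5 : Tendsto (fun y : ℝ => Real.log (1 + Real.log a / y) / Real.log y) atTop (𝓝 0) :=
        h3.div_atTop Real.tendsto_log_atTop
      simpa using (tendsto_const_nhds (x := (1 : ℝ))).add h5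
    refine h2.congr' ?_
    filter_upwards [eventually_gt_atTop 1, eventually_gt_atTop (-Real.log a),
      eventually_gt_atTop (0 : ℝ)] with y hy hy2 hy0
    have hl : 0 < Real.log y := Real.log_pos hy
    have e : y + Real.log a = y * (1 + Real.log a / y) := by field_simp
    have hp : 0 < 1 + Real.log a / y := by
      have : 0 < y * (1 + Real.log a / y) := by rw [← e]; linarith
      exact pos_of_mul_pos_right this hy0.le
    rw [e, Real.log_mul hy0.ne' hp.ne', add_div, div_self hl.ne']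
  refine (h1.comp Real.tendsto_log_atTop).congr' ?_
  filter_upwards [eventually_gt_atTop 0] with s hs
  simp only [Function.comp]
  rw [Real.log_mul ha.ne' hs.ne', add_comm]

theorem tendsto_ll : Tendsto (fun s : ℝ => Real.log (Real.log s)) atTop atTop :=
  Real.tendsto_log_atTop.comp Real.tendsto_log_atTop

theorem phi_le_scale (m : ℝ) (hm : 1 ≤ m) (ε : ℝ) (hε : 0 < ε) :
    ∀ᶠ s in atTop, phi s ≤ (1 + ε) * (Real.sqrt m * phi (s / m)) := by
  have hm0 : 0 < m := by linarith
  have h1 := ll_ratio (1 / m) (by positivity)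
  have h2 : ∀ᶠ s in atTop, 1 / (1 + ε) ^ 2 <
      Real.log (Real.log (1 / m * s)) / Real.log (Real.log s) := by
    refine h1.eventually_const_lt ?_
    rw [div_lt_one (by positivity)]
    nlinarith
  filter_upwards [h2, tendsto_ll.eventually_gt_atTop 0, eventually_gt_atTop (0 : ℝ)] with s hs hl hs0
  rw [lt_div_iff₀ hl] at hs
  have e : 1 / m * s = s / m := by ring
  rw [e] at hs
  unfold phi
  rw [← Real.sqrt_mul hm0.le]
  have e2 : (1 + ε) = Real.sqrt ((1 + ε) ^ 2) := (Real.sqrt_sq (by linarith)).symm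
  rw [e2, ← Real.sqrt_mul (by positivity)]
  apply Real.sqrt_le_sqrt
  have e3 : m * (2 * (s / m) * Real.log (Real.log (s / m))) = 2 * s * Real.log (Real.log (s / m)) := by
    field_simp
  rw [e3]
  have h3 : Real.log (Real.log s) ≤ (1 + ε) ^ 2 * Real.log (Real.log (s / m)) := by
    have : 1 / (1 + ε) ^ 2 * Real.log (Real.log s) * (1 + ε) ^ 2 = Real.log (Real.log s) := by
      field_simp
    nlinarith [hs, sq_nonneg (1 + ε), mul_lt_mul_of_pos_right hs (show 0 < (1 + ε) ^ 2 by positivity)]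
  calc 2 * s * Real.log (Real.log s) ≤ 2 * s * ((1 + ε) ^ 2 * Real.log (Real.log (s / m))) :=
        mul_le_mul_of_nonneg_left h3 (by positivity)
    _ = _ := by ring

theorem phi_le_peak (m : ℝ) (hm : 1 ≤ m) (ε : ℝ) (hε : 0 < ε) :
    ∀ᶠ s in atTop, ∀ n : ℝ, 3 ≤ n → n * m ≤ s * (1 + ε) → n ≤ 2 * s →
      phi n * Real.sqrt m ≤ (1 + ε) * phi s := by
  have hm0 : 0 < m := by linarith
  have h1 := ll_ratio 2 (by norm_num)
  have h2 : ∀ᶠ s in atTop, Real.log (Real.log (2 * s)) / Real.log (Real.log s) < 1 + ε :=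
    h1.eventually_lt_const (by linarith)
  filter_upwards [h2, tendsto_ll.eventually_gt_atTop 0, eventually_gt_atTop (1 : ℝ)] with s hs hl hs1 n hn3 hn hn2
  rw [div_lt_iff₀ hl] at hs
  have h3 : Real.log (Real.log n) ≤ (1 + ε) * Real.log (Real.log s) := by
    refine le_trans ?_ hs.le
    have hlog : 0 < Real.log n := Real.log_pos (by linarith)
    exact Real.log_le_log hlog (Real.log_le_log (by linarith) hn2)
  have hln : 0 ≤ Real.log (Real.log n) := by
    apply Real.log_nonneg
    rw [Real.le_log_iff_exp_le (by linarith)]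
    have := Real.exp_one_lt_d9
    linarith
  unfold phi
  rw [← Real.sqrt_mul' _ hm0.le]
  have e2 : (1 + ε) = Real.sqrt ((1 + ε) ^ 2) := (Real.sqrt_sq (by linarith)).symm
  rw [e2, ← Real.sqrt_mul (by positivity)]
  apply Real.sqrt_le_sqrt
  calc 2 * n * Real.log (Real.log n) * m = 2 * (n * m) * Real.log (Real.log n) := by ring
    _ ≤ 2 * (s * (1 + ε)) * Real.log (Real.log n) :=
        mul_le_mul_of_nonneg_right (by linarith) hln
    _ ≤ 2 * (s * (1 + ε)) * ((1 + ε) * Real.log (Real.log s)) :=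
        mul_le_mul_of_nonneg_left h3 (by positivity)
    _ = _ := by ring

theorem phi_mono {x y : ℝ} (hx : 3 ≤ x) (hxy : x ≤ y) : phi x ≤ phi y := by
  unfold phi
  apply Real.sqrt_le_sqrt
  have hln : 0 ≤ Real.log (Real.log x) := by
    apply Real.log_nonneg
    rw [Real.le_log_iff_exp_le (by linarith)]
    have := Real.exp_one_lt_d9
    linarith
  have hlog : 0 < Real.log x := Real.log_pos (by linarith)
  have h3 : Real.log (Real.log x) ≤ Real.log (Real.log y) :=
    Real.log_le_log hlog (Real.log_le_log (by linarith) hxy)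
  calc 2 * x * Real.log (Real.log x) ≤ 2 * y * Real.log (Real.log x) :=
        mul_le_mul_of_nonneg_right (by linarith) hln
    _ ≤ _ := mul_le_mul_of_nonneg_left h3 (by linarith)

theorem sqrt_le_phi : ∀ᶠ s in atTop, Real.sqrt s ≤ phi s := by
  filter_upwards [tendsto_ll.eventually_ge_atTop 1, eventually_gt_atTop (0 : ℝ)] with s hs hs0
  unfold phi
  apply Real.sqrt_le_sqrt
  nlinarith

theorem phi_sq_le {s : ℝ} (hs : 3 ≤ s) : phi s ^ 2 ≤ 2 * s * Real.log s := by
  unfold phi
  have hlog : 0 < Real.log s := Real.log_pos (by linarith)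
  have hln : 0 ≤ Real.log (Real.log s) := by
    apply Real.log_nonneg
    rw [Real.le_log_iff_exp_le (by linarith)]
    have := Real.exp_one_lt_d9
    linarith
  rw [Real.sq_sqrt (by positivity)]
  have : Real.log (Real.log s) ≤ Real.log s := (Real.log_le_sub_one_of_pos hlog).trans (by linarith)
  exact mul_le_mul_of_nonneg_left this (by linarith)

/-- exponential beats polynomial -/
theorem garb (p : ℕ) (κ a ε : ℝ) (hε : 0 < ε) :
    ∀ᶠ c : ℕ in atTop, κ + a * ((c : ℝ) + 17) ^ p ≤ ε * Real.sqrt (2 ^ c) := by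
  have h1 : Tendsto (fun n : ℕ => (n : ℝ) ^ p / (Real.sqrt 2) ^ n) atTop (𝓝 0) :=
    tendsto_pow_const_div_const_pow_of_one_lt p (by
      rw [Real.lt_sqrt (by norm_num)]; norm_num)
  have h2 : Tendsto (fun c : ℕ => ((c + 17 : ℕ) : ℝ) ^ p / (Real.sqrt 2) ^ (c + 17)) atTop (𝓝 0) :=
    (tendsto_add_atTop_iff_nat (f := fun n : ℕ => (n : ℝ) ^ p / (Real.sqrt 2) ^ n) 17).mpr h1
  have h3 : Tendsto (fun c : ℕ => κ * (1 / Real.sqrt 2) ^ c + a * (Real.sqrt 2) ^ 17 *
      (((c + 17 : ℕ) : ℝ) ^ p / (Real.sqrt 2) ^ (c + 17))) atTop (𝓝 (κ * 0 + a * (Real.sqrt 2) ^ 17 * 0)) := by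
    refine (Tendsto.const_mul _ ?_).add (h2.const_mul _)
    refine tendsto_pow_atTop_nhds_zero_of_lt_one (by positivity) ?_
    rw [div_lt_one (by positivity), Real.lt_sqrt (by norm_num)]
    norm_num
  rw [mul_zero, mul_zero, add_zero] at h3
  filter_upwards [h3.eventually_lt_const hε] with c hc
  have hs : 0 < Real.sqrt 2 := by positivity
  have e1 : Real.sqrt (2 ^ c) = Real.sqrt 2 ^ c := by
    have : (2 : ℝ) ^ c = (Real.sqrt 2 ^ c) ^ 2 := by
      rw [← pow_mul, mul_comm, pow_mul, Real.sq_sqrt (by norm_num)]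
    rw [this, Real.sqrt_sq (by positivity)]
  rw [e1]
  have hp : 0 < Real.sqrt 2 ^ c := by positivity
  have e2 : κ + a * ((c : ℝ) + 17) ^ p = (κ * (1 / Real.sqrt 2) ^ c + a * (Real.sqrt 2) ^ 17 *
      (((c + 17 : ℕ) : ℝ) ^ p / (Real.sqrt 2) ^ (c + 17))) * Real.sqrt 2 ^ c := by
    have e3 : (1 / Real.sqrt 2) ^ c * Real.sqrt 2 ^ c = 1 := by
      rw [← mul_pow, one_div, inv_mul_cancel₀ hs.ne', one_pow]
    rw [add_mul, mul_assoc κ, e3, pow_add]
    push_cast
    field_simp
  rw [e2]
  exact mul_le_mul_of_nonneg_right hc.le hp.le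

end Pool.Agent.H426R3.SN
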