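import Mathlib
import Pool.Agent.H426R3.SN.Grow
import Pool.Agent.H426R3.SN.Phi

set_option autoImplicit false

/-! The law of the iterated logarithm for the constructed sequence. -/

namespace Pool.Agent.H426R3.SN

open Finset Filter Topology

attribute [local irreducible] KK mu MM BB QQ UU ell LL

theorem sum_G_sq' {c m k : ℕ} (hmM : m ∣ MM c) (hk : k < 2 ^ m) :
    ∑ w ∈ range (BB c), (G (2 ^ m) (MM c / m) k w) ^ 2 =
      ((MM c / m : ℕ) : ℤ) * BB c * ((2 : ℤ) ^ m - 1) := by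
  have e0 : (2 ^ m) ^ (MM c / m) = BB c := by
    rw [← pow_mul, Nat.mul_div_cancel' hmM]; unfold BB; rfl
  have h := sum_G_sq (D := 2 ^ m) (q := MM c / m) hk
  rw [e0] at h
  rw [h]
  have e1 : (((2 ^ m : ℕ) : ℤ)) ^ (MM c / m) = (BB c : ℤ) := by exact_mod_cast congrArg (Nat.cast : ℕ → ℤ) e0
  rw [e1]
  push_cast
  rfl

theorem JJ_sq (c m k : ℕ) (hmM : m ∣ MM c) (hk : k < 2 ^ m) :
    (JJ c m k) ^ 2 ≤ (((MM c / gm c : ℕ) : ℤ) * BB c * ((2 : ℤ) ^ gm c - 1)) *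
      (((MM c / m : ℕ) : ℤ) * BB c * ((2 : ℤ) ^ m - 1)) := by
  rw [← sum_G_sq' hmM hk, ← sum_G_sq' (gm_dvd c) (gk_lt c)]
  exact Finset.sum_mul_sq_le_sq_mul_sq _ _ _

theorem JJ_goal (c : ℕ) : JJ c (gm c) (gk c) = ((MM c / gm c : ℕ) : ℤ) * BB c * ((2 : ℤ) ^ gm c - 1) := by
  rw [← sum_G_sq' (gm_dvd c) (gk_lt c)]
  unfold JJ GG
  exact Finset.sum_congr rfl fun w _ => by ring

theorem cast_div' {c m : ℕ} (hm : 1 ≤ m) (hmM : m ∣ MM c) : ((MM c / m : ℕ) : ℝ) = (MM c : ℝ) / m :=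
  Nat.cast_div hmM (by positivity)

theorem ratio_ge_one {m : ℕ} (hm : 1 ≤ m) : 1 ≤ ((2 : ℝ) ^ m - 1) / m := by
  rw [le_div_iff₀ (by positivity), one_mul]
  have : m + 1 ≤ 2 ^ m := Nat.lt_two_pow_self
  have h : ((m + 1 : ℕ) : ℝ) ≤ ((2 ^ m : ℕ) : ℝ) := by exact_mod_cast this
  push_cast at h
  linarith

theorem nrm_ge (c : ℕ) : 1 ≤ nrm c := by
  unfold nrm
  have h1 : (1 : ℝ) ≤ BB c := by exact_mod_cast BB_pos c
  have h2 : (1 : ℝ) ≤ MM c := by exact_mod_cast MM_pos c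
  have h3 : 1 ≤ Real.sqrt (((2 : ℝ) ^ gm c - 1) / gm c) := by
    rw [Real.one_le_sqrt]; exact ratio_ge_one (gm_pos c)
  calc (1 : ℝ) = 1 * 1 * 1 := by norm_num
    _ ≤ _ := mul_le_mul (mul_le_mul h1 h2 (by norm_num) (by linarith)) h3 (by norm_num) (by positivity)

theorem nrm_sq (c : ℕ) : nrm c ^ 2 = (BB c : ℝ) ^ 2 * (MM c : ℝ) ^ 2 * (((2 : ℝ) ^ gm c - 1) / gm c) := by
  unfold nrm
  rw [mul_pow, mul_pow, Real.sq_sqrt]
  linarith [ratio_ge_one (gm_pos c)]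

theorem JJ_le {c m k : ℕ} (hm : 1 ≤ m) (hmM : m ∣ MM c) (hk : k < 2 ^ m) :
    |(JJ c m k : ℝ)| ≤ nrm c * Real.sqrt (((2 : ℝ) ^ m - 1) / m) := by
  have h1 := JJ_sq c m k hmM hk
  have h2 : ((JJ c m k : ℤ) : ℝ) ^ 2 ≤ ((((MM c / gm c : ℕ) : ℝ)) * BB c * ((2 : ℝ) ^ gm c - 1)) *
      ((((MM c / m : ℕ) : ℝ)) * BB c * ((2 : ℝ) ^ m - 1)) := by
    generalize MM c / gm c = q at *
    generalize MM c / m = q' at *
    have h3 := (Int.cast_le (R := ℝ)).mpr h1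
    push_cast at h3
    exact h3
  rw [cast_div' hm hmM, cast_div' (gm_pos c) (gm_dvd c)] at h2
  have hn := nrm_ge c
  refine abs_le_of_sq_le_sq ?_ (mul_nonneg (by linarith) (Real.sqrt_nonneg _))
  rw [mul_pow, nrm_sq, Real.sq_sqrt (by linarith [ratio_ge_one hm])]
  refine h2.trans (le_of_eq ?_)
  ring

theorem JJ_goal_eq (c : ℕ) :
    (JJ c (gm c) (gk c) : ℝ) = nrm c * Real.sqrt (((2 : ℝ) ^ gm c - 1) / gm c) := by
  rw [JJ_goal]
  have hq := cast_div' (gm_pos c) (gm_dvd c)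
  unfold nrm
  generalize MM c / gm c = q at *
  have h3 := Real.mul_self_sqrt (show (0 : ℝ) ≤ ((2 : ℝ) ^ gm c - 1) / gm c by
    linarith [ratio_ge_one (gm_pos c)])
  push_cast
  rw [hq, mul_assoc ((BB c : ℝ) * MM c), h3]
  ring

theorem Lam_eq (c : ℕ) : Lam c = phi (ss c) := rfl

theorem Lam_nonneg (c : ℕ) : 0 ≤ Lam c := Real.sqrt_nonneg _

theorem ss_ge8 (c : ℕ) : (8 : ℝ) ≤ ss c := by
  have h := ss_ge c
  have : 8 ≤ ss c := le_trans (by
    calc 8 = 2 ^ 3 := by norm_num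
      _ ≤ 2 ^ (c + 3) := Nat.pow_le_pow_right (by norm_num) (by omega)) h
  exact_mod_cast this

theorem log_ss_le (c : ℕ) : Real.log (ss c) ≤ ell c := by
  have h := ss_le c
  have h8 := ss_ge8 c
  have h2 : Real.log (ss c) ≤ Real.log ((2 : ℝ) ^ ell c) :=
    Real.log_le_log (by linarith) (by exact_mod_cast h)
  rw [Real.log_pow] at h2
  have h3 : Real.log 2 ≤ 1 := by
    have := Real.log_two_lt_d9
    linarith
  have h4 : (0 : ℝ) ≤ ell c := Nat.cast_nonneg _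
  nlinarith

theorem Lam_sq_le (c : ℕ) : Lam c ^ 2 ≤ 2 * ss c * ell c := by
  rw [Lam_eq]
  have h8 := ss_ge8 c
  refine (phi_sq_le (by linarith)).trans ?_
  exact mul_le_mul_of_nonneg_left (log_ss_le c) (by linarith)

theorem le_of_sq_le_sq' {a b : ℝ} (h : a ^ 2 ≤ b ^ 2) (hb : 0 ≤ b) : a ≤ b :=
  (le_abs_self a).trans (abs_le_of_sq_le_sq h hb)

theorem Lam_le_KK (c : ℕ) : Lam c ≤ KK c / 2 := by
  have h1 := Lam_sq_le c
  have h2 : (ss c : ℝ) ≤ 2 ^ ell c := by exact_mod_cast ss_le c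
  have h3 : (ell c : ℝ) ≤ 2 ^ (c + 17) := by
    have h4 := ell_le c
    have h5 := cube_le_two_pow c
    have h6 := le_cube c
    have : ell c ≤ 2 ^ (c + 17) := by
      calc ell c ≤ 2 * ((c + 16) ^ 3 + 2) := by omega
        _ ≤ 2 * 2 ^ (c + 16) := by omega
        _ = 2 ^ (c + 17) := by ring
    exact_mod_cast this
  have h4 : (2 : ℝ) ^ (ell c - (c + 16) - (c + 16) ^ 2) ≤ KK c := by exact_mod_cast KK_lower' c
  have h5 : 2 * (ss c : ℝ) * ell c ≤ 2 ^ (ell c + (c + 18)) := by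
    calc 2 * (ss c : ℝ) * ell c ≤ 2 * 2 ^ ell c * 2 ^ (c + 17) := by
          refine mul_le_mul (by linarith) h3 (Nat.cast_nonneg _) (by positivity)
      _ = 2 ^ ell c * 2 ^ (c + 18) := by ring
      _ = _ := (pow_add 2 (ell c) (c + 18)).symm
  have h6 : (2 : ℝ) ^ (ell c + (c + 18)) ≤ (KK c / 2) ^ 2 := by
    have h7 : (ell c + (c + 18)) + 2 ≤ 2 * (ell c - (c + 16) - (c + 16) ^ 2) := by
      have h := ell_gt c
      have : (c + 16) ^ 3 ≥ 16 * (c + 16) ^ 2 := by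
        rw [pow_succ (c + 16) 2, mul_comm]
        exact Nat.mul_le_mul_right _ (by omega)
      have : (c + 16) ^ 2 ≥ 16 * (c + 16) := by
        rw [pow_two]
        exact Nat.mul_le_mul_right _ (by omega)
      omega
    have h10 : (2 : ℝ) ^ (ell c + (c + 18) + 2) = 4 * (2 : ℝ) ^ (ell c + (c + 18)) := by
      rw [pow_add 2 (ell c + (c + 18)) 2]; norm_num; ring
    generalize ell c + (c + 18) = X at *
    generalize ell c - (c + 16) - (c + 16) ^ 2 = E at *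
    have h8 : (2 : ℝ) ^ (X + 2) ≤ (2 : ℝ) ^ (2 * E) := pow_le_pow_right₀ (by norm_num) h7
    have h9 : ((2 : ℝ) ^ E) ^ 2 ≤ (KK c : ℝ) ^ 2 := pow_le_pow_left₀ (by positivity) h4 2
    rw [← pow_mul, mul_comm E 2] at h9
    rw [div_pow]
    rw [h10] at h8
    linarith
  exact le_of_sq_le_sq' (h1.trans (h5.trans h6)) (by positivity)

theorem AA_le (c : ℕ) : (AA c : ℝ) ≤ Lam c / nrm c := by
  have hn := nrm_ge c
  have h1 : (AA c : ℝ) ≤ (⌊Lam c / nrm c⌋₊ : ℝ) := by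
    unfold AA
    exact_mod_cast min_le_left _ _
  exact h1.trans (Nat.floor_le (div_nonneg (Lam_nonneg c) (by linarith)))

theorem two_AA_le (c : ℕ) : 2 * AA c ≤ KK c := by
  have : AA c ≤ KK c / 2 := min_le_right _ _
  omega

theorem AA_ge (c : ℕ) : Lam c / nrm c - 1 < AA c := by
  have hn := nrm_ge c
  have h1 : ⌊Lam c / nrm c⌋₊ ≤ KK c / 2 := by
    have h2 : Lam c / nrm c ≤ KK c / 2 := (div_le_self (Lam_nonneg c) hn).trans (Lam_le_KK c)
    have h3 : ⌊Lam c / nrm c⌋₊ ≤ ⌊(KK c : ℝ) / (2 : ℕ)⌋₊ := Nat.floor_le_floor (by push_cast; exact h2)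
    rwa [Nat.floor_div_natCast, Nat.floor_natCast] at h3
  have h2 : AA c = ⌊Lam c / nrm c⌋₊ := by unfold AA; exact min_eq_left h1
  rw [h2]
  linarith [Nat.lt_floor_add_one (Lam c / nrm c)]

theorem AA_JJ_le {c m k : ℕ} (hm : 1 ≤ m) (hmM : m ∣ MM c) (hk : k < 2 ^ m) :
    (AA c : ℝ) * |(JJ c m k : ℝ)| ≤ Lam c * (Real.sqrt ((2 : ℝ) ^ m - 1) / Real.sqrt m) := by
  have hn := nrm_ge c
  have h1 := JJ_le hm hmM hk
  rw [Real.sqrt_div' _ (Nat.cast_nonneg m)] at h1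
  calc (AA c : ℝ) * |(JJ c m k : ℝ)| ≤ (Lam c / nrm c) * (nrm c * (Real.sqrt ((2 : ℝ) ^ m - 1) / Real.sqrt m)) :=
        mul_le_mul (AA_le c) h1 (abs_nonneg _) (div_nonneg (Lam_nonneg c) (by linarith))
    _ = _ := by
        have : nrm c ≠ 0 := by linarith
        field_simp

/-! ### control at the beginning of the classes -/

theorem ss_succ_div {c m : ℕ} (h1 : m ∣ MM c) (h2 : m ∣ MM (c + 1)) :
    ss (c + 1) / m = ss c / m + KK c * (ell c / m) + ee (c + 1) (tt (c + 1)) / m := by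
  have h3 : m ∣ ss c := h1.trans (MM_dvd_ss c)
  have h4 : m ∣ ell c := h1.trans (MM_dvd_ell c)
  have h5 : m ∣ ss (c + 1) := h2.trans (MM_dvd_ss (c + 1))
  have h6 : m ∣ ss c + KK c * ell c := dvd_add h3 (h4.mul_left _)
  have h7 : m ∣ ee (c + 1) (tt (c + 1)) := by
    rw [ss_succ] at h5
    exact (Nat.dvd_add_right h6).mp h5
  rw [ss_succ, Nat.add_div_of_dvd_right h6, Nat.add_div_of_dvd_right h3, Nat.mul_div_assoc _ h4]

theorem Del_ss {m k c0 : ℕ} (hm : 1 ≤ m) (hk : k < 2 ^ m) (h : ∀ c, c0 ≤ c → m ∣ MM c) (c : ℕ)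
    (hc : c0 ≤ c) :
    |Del m k (ss c / m)| ≤ |Del m k (ss c0 / m)| + 2 ^ m * (c * (c + 16) ^ 3) := by
  induction c, hc using Nat.le_induction with
  | base =>
    have : (0 : ℤ) ≤ 2 ^ m * (c0 * (c0 + 16) ^ 3) := by positivity
    linarith
  | succ c hc ih =>
    have e1 := ss_succ_div (h c hc) (h (c + 1) (by omega))
    have e2 := Del_class (c := c) (i := KK c) k hm (h c hc) hk le_rfl
    rw [tent_end (two_AA_le c)] at e2
    have e3 := Del_lip m k (ss c / m + KK c * (ell c / m)) (ee (c + 1) (tt (c + 1)) / m)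
    rw [← e1, e2] at e3
    have e4 : (((ee (c + 1) (tt (c + 1)) / m : ℕ)) : ℤ) ≤ ((c : ℤ) + 17) ^ 3 := by
      have h1 : ee (c + 1) (tt (c + 1)) / m ≤ (c + 1 + 16) ^ 3 := (Nat.div_le_self _ _).trans (ee_le _ _)
      have h2 : ((ee (c + 1) (tt (c + 1)) / m : ℕ) : ℤ) ≤ (((c + 1 + 16) ^ 3 : ℕ) : ℤ) := by exact_mod_cast h1
      push_cast at h2
      have e : (c : ℤ) + 1 + 16 = c + 17 := by ring
      rw [e] at h2
      exact_mod_cast h2
    have h2m : (0 : ℤ) < 2 ^ m := by positivity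
    have e5 : |Del m k (ss (c + 1) / m)| ≤ |Del m k (ss c / m)| + 2 ^ m * ((c : ℤ) + 17) ^ 3 := by
      have e6 : Del m k (ss (c + 1) / m) = (Del m k (ss (c + 1) / m) - (Del m k (ss c / m) +
          gs c * ((0 : ℕ) : ℤ) * JJ c m k)) + Del m k (ss c / m) := by push_cast; ring
      rw [e6]
      refine (abs_add_le _ _).trans ?_
      have := mul_le_mul_of_nonneg_left e4 h2m.le
      linarith
    refine e5.trans ?_
    have e7 : (c : ℤ) * (c + 16) ^ 3 + (c + 17) ^ 3 ≤ (c + 1) * (c + 1 + 16) ^ 3 := by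
      have : (0 : ℤ) ≤ c := Int.natCast_nonneg c
      nlinarith [mul_nonneg this this, mul_nonneg (mul_nonneg this this) this]
    have e8 := mul_le_mul_of_nonneg_left e7 h2m.le
    push_cast
    linarith

theorem Del_bound {m k c0 : ℕ} (hm : 1 ≤ m) (hk : k < 2 ^ m) (h : ∀ c, c0 ≤ c → m ∣ MM c) (c : ℕ)
    (hc : c0 ≤ c) (n : ℕ) (hn1 : ss c / m ≤ n) (hn2 : n ≤ ss (c + 1) / m) :
    |Del m k n| ≤ |Del m k (ss c0 / m)| + 2 ^ m * (c * (c + 16) ^ 3) + AA c * |JJ c m k| +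
      2 ^ m * (ell c + (c + 17) ^ 3) := by
  have h0 := Del_ss hm hk h c hc
  have h2m : (0 : ℤ) < 2 ^ m := by positivity
  obtain ⟨x, rfl⟩ := Nat.exists_eq_add_of_le hn1
  set q := ell c / m with hq
  have hq1 : 1 ≤ q := by
    have h4 : m ∣ ell c := (h c hc).trans (MM_dvd_ell c)
    have h5 : 1 ≤ ell c := (Nat.zero_le _).trans_lt (ell_gt c)
    exact Nat.div_pos (Nat.le_of_dvd h5 h4) hm
  have hqe : q ≤ ell c := Nat.div_le_self _ _
  have e1 := ss_succ_div (h c hc) (h (c + 1) (by omega))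
  rw [← hq] at e1
  have hee : ee (c + 1) (tt (c + 1)) / m ≤ (c + 17) ^ 3 := by
    have h1 : ee (c + 1) (tt (c + 1)) / m ≤ (c + 1 + 16) ^ 3 := (Nat.div_le_self _ _).trans (ee_le _ _)
    have e : c + 1 + 16 = c + 17 := by ring
    rwa [e] at h1
  -- nearest element end
  have hex : ∃ i ≤ KK c, ∃ r ≤ ell c + (c + 17) ^ 3, ss c / m + x = (ss c / m + i * q) + r := by
    rcases Nat.lt_or_ge x (KK c * q) with hx | hx
    · refine ⟨x / q, ?_, x % q, ?_, ?_⟩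
      · exact (Nat.div_lt_of_lt_mul (by rwa [mul_comm])).le
      · have := Nat.mod_lt x hq1
        omega
      · have := Nat.div_add_mod x q
        rw [mul_comm] at this
        omega
    · refine ⟨KK c, le_rfl, x - KK c * q, ?_, by omega⟩
      omega
  obtain ⟨i, hi, r, hr, e⟩ := hex
  rw [e]
  have e2 := Del_class (c := c) (i := i) k hm (h c hc) hk hi
  rw [← hq] at e2
  have e3 := Del_lip m k (ss c / m + i * q) r
  rw [e2] at e3
  have e4 : |gs c * (tent (AA c) i : ℤ) * JJ c m k| ≤ AA c * |JJ c m k| := by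
    rw [abs_mul, abs_mul, gs_abs, one_mul, Nat.abs_cast]
    exact mul_le_mul_of_nonneg_right (by exact_mod_cast tent_le _ _) (abs_nonneg _)
  have e5 : (2 : ℤ) ^ m * r ≤ 2 ^ m * (ell c + (c + 17) ^ 3) :=
    mul_le_mul_of_nonneg_left (by exact_mod_cast hr) h2m.le
  have e6 : Del m k (ss c / m + i * q + r) = (Del m k (ss c / m + i * q + r) - (Del m k (ss c / m) +
      gs c * (tent (AA c) i : ℤ) * JJ c m k)) + (Del m k (ss c / m) +
      gs c * (tent (AA c) i : ℤ) * JJ c m k) := by ring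
  rw [e6]
  refine (abs_add_le _ _).trans ?_
  have e7 := abs_add_le (Del m k (ss c / m)) (gs c * (tent (AA c) i : ℤ) * JJ c m k)
  linarith

theorem locate {m c1 n : ℕ} (hm : 1 ≤ m) (hn : ss c1 / m ≤ n) :
    ∃ c, c1 ≤ c ∧ ss c / m ≤ n ∧ n ≤ ss (c + 1) / m := by
  have hP : ∃ j, n ≤ ss (c1 + j + 1) / m := by
    refine ⟨n * m, ?_⟩
    rw [Nat.le_div_iff_mul_le hm]
    have h1 := ss_ge (c1 + n * m + 1)
    have h2 : n * m < 2 ^ (n * m) := Nat.lt_two_pow_self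
    have h3 : 2 ^ (n * m) ≤ 2 ^ (c1 + n * m + 1 + 3) := Nat.pow_le_pow_right (by norm_num) (by omega)
    omega
  let j := Nat.find hP
  have hj : n ≤ ss (c1 + j + 1) / m := Nat.find_spec hP
  refine ⟨c1 + j, by omega, ?_, hj⟩
  rcases Nat.eq_zero_or_pos j with h0 | h0
  · rw [h0]; exact hn
  · have := Nat.find_min hP (m := j - 1) (by show j - 1 < j; omega)
    push Not at this
    have e : c1 + (j - 1) + 1 = c1 + j := by omega
    rw [e] at this
    exact this.le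

end Pool.Agent.H426R3.SN
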