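import Mathlib
import Pool.Agent.H426R3.SN.Main

set_option autoImplicit false

namespace Pool.Agent.H426R3.SN

open Finset Filter Topology

attribute [local irreducible] KK mu MM BB QQ UU ell LL

theorem ss_tendsto : Tendsto (fun c : ℕ => (ss c : ℝ)) atTop atTop := by
  refine tendsto_atTop_mono (fun c => ?_) tendsto_natCast_atTop_atTop
  have h1 := ss_ge c
  have h2 : c < 2 ^ c := Nat.lt_two_pow_self
  have h3 : 2 ^ c ≤ 2 ^ (c + 3) := Nat.pow_le_pow_right (by norm_num) (by omega)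
  exact_mod_cast (h2.le.trans h3).trans h1

theorem sqrt_two_pow_le (c : ℕ) : Real.sqrt (2 ^ c) ≤ Real.sqrt (ss c) := by
  apply Real.sqrt_le_sqrt
  have h1 := ss_ge c
  have h3 : 2 ^ c ≤ 2 ^ (c + 3) := Nat.pow_le_pow_right (by norm_num) (by omega)
  exact_mod_cast h3.trans h1

theorem garb_total (m : ℕ) (κ ε : ℝ) (hε : 0 < ε) : ∀ᶠ c : ℕ in atTop,
    κ + 2 ^ m * ((c : ℝ) * (c + 16) ^ 3) + 2 ^ m * (ell c + ((c : ℝ) + 17) ^ 3) ≤ ε * Real.sqrt (2 ^ c) := by
  filter_upwards [garb 6 κ (2 ^ m * 4) ε hε] with c hc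
  refine le_trans ?_ hc
  have h1 : (ell c : ℝ) ≤ ((c : ℝ) + 16) ^ 3 + (c + 16) := by exact_mod_cast ell_le c
  have hc0 : (0 : ℝ) ≤ c := Nat.cast_nonneg c
  have h2m : (0 : ℝ) < 2 ^ m := by positivity
  have h2 : (c : ℝ) * (c + 16) ^ 3 + (ell c + ((c : ℝ) + 17) ^ 3) ≤ 4 * ((c : ℝ) + 17) ^ 6 := by
    set X : ℝ := (c : ℝ) + 17 with hX
    have e1 : (c : ℝ) + 16 ≤ X := by linarith
    have e2 : (c : ℝ) ≤ X := by linarith
    have e3 : (1 : ℝ) ≤ X := by linarith
    have h3 : ((c : ℝ) + 16) ^ 3 ≤ X ^ 3 := pow_le_pow_left₀ (by linarith) e1 3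
    have h4 : (c : ℝ) * (c + 16) ^ 3 ≤ X * X ^ 3 := mul_le_mul e2 h3 (by positivity) (by linarith)
    have h5 : X * X ^ 3 ≤ X ^ 6 := by
      calc X * X ^ 3 = X ^ 4 := by ring
        _ ≤ X ^ 6 := pow_le_pow_right₀ e3 (by norm_num)
    have h6 : X ^ 3 ≤ X ^ 6 := pow_le_pow_right₀ e3 (by norm_num)
    have h7 : X ≤ X ^ 6 := by
      calc X = X ^ 1 := (pow_one _).symm
        _ ≤ X ^ 6 := pow_le_pow_right₀ e3 (by norm_num)
    linarith
  have := mul_le_mul_of_nonneg_left h2 h2m.le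
  linarith

theorem S_ge {m : ℕ} (hm : 1 ≤ m) : 1 ≤ Real.sqrt ((2 : ℝ) ^ m - 1) := by
  rw [Real.one_le_sqrt]
  have : (2 : ℝ) ^ 1 ≤ 2 ^ m := pow_le_pow_right₀ (by norm_num) hm
  linarith

theorem upper {m k : ℕ} (hm : 1 ≤ m) (hk : k < 2 ^ m) (ε : ℝ) (hε : 0 < ε) :
    ∀ᶠ n : ℕ in atTop, |(Del m k n : ℝ)| ≤ (Real.sqrt ((2 : ℝ) ^ m - 1) + ε) * phi n := by
  obtain ⟨c0, hc0⟩ := dvd_MM m hm
  set S := Real.sqrt ((2 : ℝ) ^ m - 1) with hS
  have hS1 : 1 ≤ S := S_ge hm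
  have hm1 : (1 : ℝ) ≤ m := by exact_mod_cast hm
  have hm0 : (0 : ℝ) < m := by linarith
  have hsm : 0 < Real.sqrt m := Real.sqrt_pos.mpr hm0
  set κ : ℝ := |(Del m k (ss c0 / m) : ℝ)| with hκ
  have hdiv : Tendsto (fun c : ℕ => (ss c : ℝ) / m) atTop atTop := ss_tendsto.atTop_div_const hm0
  have E1 := ss_tendsto.eventually (phi_le_scale m hm1 (ε / (2 * S)) (by positivity))
  have E2 := hdiv.eventually sqrt_le_phi
  have E3 := garb_total m κ (ε / (2 * Real.sqrt m)) (by positivity)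
  have E4 := hdiv.eventually_ge_atTop 3
  obtain ⟨c1, hc1⟩ := eventually_atTop.mp (E1.and (E2.and (E3.and (E4.and (eventually_ge_atTop c0)))))
  filter_upwards [eventually_ge_atTop (ss c1 / m)] with n hn
  obtain ⟨c, hcc, hn1, hn2⟩ := locate hm hn
  obtain ⟨f1, f2, f3, f4, f5⟩ := hc1 c hcc
  have hb := Del_bound hm hk hc0 c f5 n hn1 hn2
  have hb' : |(Del m k n : ℝ)| ≤ κ + 2 ^ m * ((c : ℝ) * (c + 16) ^ 3) + AA c * |(JJ c m k : ℝ)| +
      2 ^ m * (ell c + ((c : ℝ) + 17) ^ 3) := by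
    have := (Int.cast_le (R := ℝ)).mpr hb
    push_cast at this
    exact this
  have hdvd : m ∣ ss c := (hc0 c f5).trans (MM_dvd_ss c)
  have hcast : ((ss c / m : ℕ) : ℝ) = (ss c : ℝ) / m := Nat.cast_div hdvd (by positivity)
  have hn1' : (ss c : ℝ) / m ≤ n := by rw [← hcast]; exact_mod_cast hn1
  have hmono : phi ((ss c : ℝ) / m) ≤ phi n := phi_mono f4 hn1'
  have g1 : Real.sqrt (2 ^ c) ≤ Real.sqrt m * phi n := by
    calc Real.sqrt (2 ^ c) ≤ Real.sqrt (ss c) := sqrt_two_pow_le c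
      _ = Real.sqrt m * Real.sqrt ((ss c : ℝ) / m) := by
          rw [← Real.sqrt_mul hm0.le]
          congr 1
          field_simp
      _ ≤ Real.sqrt m * phi ((ss c : ℝ) / m) := mul_le_mul_of_nonneg_left f2 hsm.le
      _ ≤ _ := mul_le_mul_of_nonneg_left hmono hsm.le
  have g2 : ε / (2 * Real.sqrt m) * Real.sqrt (2 ^ c) ≤ ε / 2 * phi n := by
    calc ε / (2 * Real.sqrt m) * Real.sqrt (2 ^ c) ≤ ε / (2 * Real.sqrt m) * (Real.sqrt m * phi n) :=
          mul_le_mul_of_nonneg_left g1 (by positivity)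
      _ = _ := by field_simp
  have g3 := AA_JJ_le (c := c) hm (hc0 c f5) hk
  have g4 : Lam c * (S / Real.sqrt m) ≤ (S + ε / 2) * phi n := by
    calc Lam c * (S / Real.sqrt m) ≤ ((1 + ε / (2 * S)) * (Real.sqrt m * phi ((ss c : ℝ) / m))) * (S / Real.sqrt m) :=
          mul_le_mul_of_nonneg_right f1 (by positivity)
      _ = (S + ε / 2) * phi ((ss c : ℝ) / m) := by field_simp
      _ ≤ _ := mul_le_mul_of_nonneg_left hmono (by linarith)
  calc |(Del m k n : ℝ)| ≤ ε / (2 * Real.sqrt m) * Real.sqrt (2 ^ c) + Lam c * (S / Real.sqrt m) := by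
        linarith
    _ ≤ ε / 2 * phi n + (S + ε / 2) * phi n := add_le_add g2 g4
    _ = _ := by ring

theorem small_step (ε : ℝ) (hε : 0 < ε) : ∀ᶠ c : ℕ in atTop, phi (ss c) * ell c ≤ ε * ss c := by
  filter_upwards [garb 9 0 16 (ε ^ 2) (by positivity)] with c hc
  have h1 := Lam_sq_le c
  rw [Lam_eq] at h1
  have h2 : (ell c : ℝ) ≤ ((c : ℝ) + 16) ^ 3 + (c + 16) := by exact_mod_cast ell_le c
  have hc0 : (0 : ℝ) ≤ c := Nat.cast_nonneg c
  set X : ℝ := (c : ℝ) + 17 with hX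
  have e3 : (1 : ℝ) ≤ X := by linarith
  have h3 : (ell c : ℝ) ≤ 2 * X ^ 3 := by
    have h3 : ((c : ℝ) + 16) ^ 3 ≤ X ^ 3 := pow_le_pow_left₀ (by linarith) (by linarith) 3
    have h7 : X ≤ X ^ 3 := by
      calc X = X ^ 1 := (pow_one _).symm
        _ ≤ X ^ 3 := pow_le_pow_right₀ e3 (by norm_num)
    linarith
  have hl0 : (0 : ℝ) ≤ ell c := Nat.cast_nonneg _
  have h4 : (ell c : ℝ) ^ 3 ≤ (2 * X ^ 3) ^ 3 := pow_le_pow_left₀ hl0 h3 3
  have h5 : 2 * (ell c : ℝ) ^ 3 ≤ ε ^ 2 * ss c := by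
    have h6 : Real.sqrt (2 ^ c) ≤ (ss c : ℝ) := by
      have h7 := sqrt_two_pow_le c
      have h8 := ss_ge8 c
      refine h7.trans ?_
      rw [Real.sqrt_le_left (by linarith)]
      nlinarith
    have h9 : 2 * (ell c : ℝ) ^ 3 ≤ 0 + 16 * X ^ 9 := by
      calc 2 * (ell c : ℝ) ^ 3 ≤ 2 * (2 * X ^ 3) ^ 3 := by linarith
        _ = 0 + 16 * X ^ 9 := by ring
    calc 2 * (ell c : ℝ) ^ 3 ≤ 0 + 16 * X ^ 9 := h9
      _ ≤ ε ^ 2 * Real.sqrt (2 ^ c) := hc
      _ ≤ _ := mul_le_mul_of_nonneg_left h6 (by positivity)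
  have h8 := ss_ge8 c
  refine le_of_sq_le_sq' ?_ (by positivity)
  calc (phi (ss c) * ell c) ^ 2 = phi (ss c) ^ 2 * (ell c : ℝ) ^ 2 := by ring
    _ ≤ (2 * ss c * ell c) * (ell c : ℝ) ^ 2 := mul_le_mul_of_nonneg_right h1 (by positivity)
    _ = (2 * (ell c : ℝ) ^ 3) * ss c := by ring
    _ ≤ (ε ^ 2 * ss c) * ss c := mul_le_mul_of_nonneg_right h5 (by linarith)
    _ = (ε * ss c) ^ 2 := by ring

theorem peak {m k : ℕ} (hm : 1 ≤ m) (hk : k < 2 ^ m) (s : ℤ) (hs : s = 1 ∨ s = -1) (ε : ℝ) (hε : 0 < ε) :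
    ∃ᶠ n : ℕ in atTop, (Real.sqrt ((2 : ℝ) ^ m - 1) - ε) * phi n < s * (Del m k n : ℝ) := by
  obtain ⟨c0, hc0⟩ := dvd_MM m hm
  set S := Real.sqrt ((2 : ℝ) ^ m - 1) with hS
  have hS1 : 1 ≤ S := S_ge hm
  have hm1 : (1 : ℝ) ≤ m := by exact_mod_cast hm
  have hm0 : (0 : ℝ) < m := by linarith
  have hsm : 0 < Real.sqrt m := Real.sqrt_pos.mpr hm0
  set ε0 := min ε S with hε0
  have he0 : 0 < ε0 := lt_min hε (by linarith)
  have he0S : ε0 ≤ S := min_le_right _ _
  set ε1 := min (ε0 / (2 * S)) 1 with hε1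
  have he1 : 0 < ε1 := lt_min (by positivity) one_pos
  have he11 : ε1 ≤ 1 := min_le_right _ _
  have he1S : ε1 ≤ ε0 / (2 * S) := min_le_left _ _
  set κ : ℝ := |(Del m k (ss c0 / m) : ℝ)| with hκ
  have hdiv : Tendsto (fun c : ℕ => (ss c : ℝ) / m) atTop atTop := ss_tendsto.atTop_div_const hm0
  have E1 := ss_tendsto.eventually (phi_le_peak m hm1 ε1 he1)
  have E2 := ss_tendsto.eventually sqrt_le_phi
  have E3 := garb 6 κ (2 ^ m * 2) (ε0 / (4 * Real.sqrt m)) (by positivity)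
  have E4 := hdiv.eventually_ge_atTop 3
  have E5 := small_step ε1 he1
  obtain ⟨c1, hc1⟩ := eventually_atTop.mp (E1.and (E2.and (E3.and (E4.and (E5.and (eventually_ge_atTop c0))))))
  rw [frequently_atTop]
  intro N
  obtain ⟨c, hcN, hg1, hg2, hg3⟩ := goal_freq m k hm hk s hs (max c1 (N * m))
  obtain ⟨f1, f2, f3, f4, f5, f6⟩ := hc1 c ((le_max_left _ _).trans hcN)
  have hmM := hc0 c f6
  have hdvd : m ∣ ss c := hmM.trans (MM_dvd_ss c)
  have hdvl : m ∣ ell c := hmM.trans (MM_dvd_ell c)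
  have hcast : ((ss c / m : ℕ) : ℝ) = (ss c : ℝ) / m := Nat.cast_div hdvd (by positivity)
  have hcastl : ((ell c / m : ℕ) : ℝ) = (ell c : ℝ) / m := Nat.cast_div hdvl (by positivity)
  have hAK : AA c ≤ KK c := by have := two_AA_le c; omega
  refine ⟨ss c / m + AA c * (ell c / m), ?_, ?_⟩
  · have h1 : N ≤ ss c / m := by
      rw [Nat.le_div_iff_mul_le hm]
      have h2 := ss_ge c
      have h3 : c < 2 ^ c := Nat.lt_two_pow_self
      have h4 : 2 ^ c ≤ 2 ^ (c + 3) := Nat.pow_le_pow_right (by norm_num) (by omega)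
      have h5 : N * m ≤ c := (le_max_right _ _).trans hcN
      omega
    omega
  · have hD := Del_class (c := c) (i := AA c) k hm hmM hk hAK
    rw [tent_top] at hD
    set n := ss c / m + AA c * (ell c / m) with hn
    have hnr : (n : ℝ) = (ss c : ℝ) / m + AA c * ((ell c : ℝ) / m) := by
      rw [hn, Nat.cast_add, Nat.cast_mul, hcast, hcastl]
    -- size of n
    have hnorm := nrm_ge c
    have hAL : (AA c : ℝ) ≤ phi (ss c) := (AA_le c).trans (div_le_self (Lam_nonneg c) hnorm)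
    have hAell : (AA c : ℝ) * ell c ≤ ε1 * ss c :=
      (mul_le_mul_of_nonneg_right hAL (Nat.cast_nonneg _)).trans f5
    have hss0 : (0 : ℝ) < ss c := by linarith [ss_ge8 c]
    have hn1 : (n : ℝ) * m ≤ ss c * (1 + ε1) := by
      rw [hnr]
      have : ((ss c : ℝ) / m + AA c * ((ell c : ℝ) / m)) * m = ss c + AA c * ell c := by field_simp
      rw [this]; linarith
    have hn2 : (n : ℝ) ≤ 2 * ss c := by
      have h1 : (n : ℝ) ≤ n * m := le_mul_of_one_le_right (Nat.cast_nonneg n) hm1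
      have h2 : (ss c : ℝ) * (1 + ε1) ≤ ss c * 2 := mul_le_mul_of_nonneg_left (by linarith) hss0.le
      linarith
    have hn3 : (3 : ℝ) ≤ n := by
      rw [hnr]
      have : (0 : ℝ) ≤ AA c * ((ell c : ℝ) / m) := by positivity
      linarith
    have hphi := f1 n hn3 hn1 hn2
    -- the value
    have hds := Del_ss hm hk hc0 c f6
    have hds' : |(Del m k (ss c / m) : ℝ)| ≤ κ + 2 ^ m * ((c : ℝ) * (c + 16) ^ 3) := by
      have := (Int.cast_le (R := ℝ)).mpr hds
      push_cast at this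
      exact this
    have hJ : (JJ c m k : ℝ) = nrm c * (S / Real.sqrt m) := by
      have h := JJ_goal_eq c
      rw [hg1, hg2, Real.sqrt_div' _ (Nat.cast_nonneg m)] at h
      exact h
    have hJ0 : 0 ≤ (JJ c m k : ℝ) := by rw [hJ]; positivity
    have hJup : (JJ c m k : ℝ) ≤ 2 ^ m * (c + 16) := by
      have h := JJ_goal c
      rw [hg1, hg2] at h
      have h1 : MM c / m * BB c ≤ c + 16 := by
        refine le_trans (Nat.mul_le_mul_right _ (Nat.div_le_self _ _)) ?_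
        have : UU c = MM c * BB c := by unfold UU; rfl
        rw [← this]; exact UU_le c
      have h2 : (JJ c m k : ℤ) ≤ ((c : ℤ) + 16) * 2 ^ m := by
        rw [h]
        generalize MM c / m = q at *
        have h3 : ((q : ℤ) * BB c) ≤ (c : ℤ) + 16 := by exact_mod_cast h1
        have h4 : (0 : ℤ) ≤ (q : ℤ) * BB c := by positivity
        have h5 : (0 : ℤ) < 2 ^ m := by positivity
        calc (q : ℤ) * BB c * (2 ^ m - 1) ≤ (q : ℤ) * BB c * 2 ^ m :=
              mul_le_mul_of_nonneg_left (by linarith) h4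
          _ ≤ ((c : ℤ) + 16) * 2 ^ m := mul_le_mul_of_nonneg_right h3 h5.le
      have h3 : ((JJ c m k : ℤ) : ℝ) ≤ ((((c : ℤ) + 16) * 2 ^ m : ℤ) : ℝ) := by exact_mod_cast h2
      push_cast at h3
      linarith
    have hval : (s : ℝ) * (Del m k n : ℝ) = s * (Del m k (ss c / m) : ℝ) + AA c * (JJ c m k : ℝ) := by
      rw [hD, hg3]
      push_cast
      rcases hs with rfl | rfl
      · push_cast; ring
      · push_cast; ring
    have hsabs : -|(Del m k (ss c / m) : ℝ)| ≤ s * (Del m k (ss c / m) : ℝ) := by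
      rcases hs with rfl | rfl
      · push_cast; rw [one_mul]; exact neg_abs_le _
      · push_cast
        have := le_abs_self (Del m k (ss c / m) : ℝ)
        linarith
    have hAJ : Lam c * (S / Real.sqrt m) - (JJ c m k : ℝ) ≤ AA c * (JJ c m k : ℝ) := by
      have h1 := mul_le_mul_of_nonneg_right (AA_ge c).le hJ0
      have h2 : (Lam c / nrm c - 1) * (JJ c m k : ℝ) = Lam c * (S / Real.sqrt m) - (JJ c m k : ℝ) := by
        have : nrm c ≠ 0 := by linarith
        rw [hJ]; field_simp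
      linarith
    have hg : κ + 2 ^ m * ((c : ℝ) * (c + 16) ^ 3) + 2 ^ m * (c + 16) ≤ ε0 / (4 * Real.sqrt m) * Real.sqrt (2 ^ c) := by
      refine le_trans ?_ f3
      have hc0' : (0 : ℝ) ≤ c := Nat.cast_nonneg c
      have h2m : (0 : ℝ) < 2 ^ m := by positivity
      have h2 : (c : ℝ) * (c + 16) ^ 3 + (c + 16) ≤ 2 * ((c : ℝ) + 17) ^ 6 := by
        set X : ℝ := (c : ℝ) + 17 with hX
        have e1 : (c : ℝ) + 16 ≤ X := by linarith
        have e2 : (c : ℝ) ≤ X := by linarith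
        have e3 : (1 : ℝ) ≤ X := by linarith
        have h3 : ((c : ℝ) + 16) ^ 3 ≤ X ^ 3 := pow_le_pow_left₀ (by linarith) e1 3
        have h4 : (c : ℝ) * (c + 16) ^ 3 ≤ X * X ^ 3 := mul_le_mul e2 h3 (by positivity) (by linarith)
        have h5 : X * X ^ 3 ≤ X ^ 6 := by
          calc X * X ^ 3 = X ^ 4 := by ring
            _ ≤ X ^ 6 := pow_le_pow_right₀ e3 (by norm_num)
        have h7 : X ≤ X ^ 6 := by
          calc X = X ^ 1 := (pow_one _).symm
            _ ≤ X ^ 6 := pow_le_pow_right₀ e3 (by norm_num)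
        linarith
      have := mul_le_mul_of_nonneg_left h2 h2m.le
      linarith
    have hphis : 0 < phi (ss c) := lt_of_lt_of_le (Real.sqrt_pos.mpr hss0) f2
    have hg' : ε0 / (4 * Real.sqrt m) * Real.sqrt (2 ^ c) ≤ ε0 / 4 * (phi (ss c) / Real.sqrt m) := by
      calc ε0 / (4 * Real.sqrt m) * Real.sqrt (2 ^ c) ≤ ε0 / (4 * Real.sqrt m) * phi (ss c) :=
            mul_le_mul_of_nonneg_left ((sqrt_two_pow_le c).trans f2) (by positivity)
        _ = _ := by ring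
    -- upper bound for the left side
    have hl1 : phi n ≤ (1 + ε1) * (phi (ss c) / Real.sqrt m) := by
      rw [← mul_div_assoc, le_div_iff₀ hsm]; exact hphi
    have hphin : 0 ≤ phi n := Real.sqrt_nonneg _
    have hP : 0 < phi (ss c) / Real.sqrt m := by positivity
    have hleft : (S - ε) * phi n ≤ (S - ε0 / 2) * (phi (ss c) / Real.sqrt m) := by
      calc (S - ε) * phi n ≤ (S - ε0) * phi n :=
            mul_le_mul_of_nonneg_right (by linarith [min_le_left ε S]) hphin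
        _ ≤ (S - ε0) * ((1 + ε1) * (phi (ss c) / Real.sqrt m)) :=
            mul_le_mul_of_nonneg_left hl1 (by linarith)
        _ = ((S - ε0) * (1 + ε1)) * (phi (ss c) / Real.sqrt m) := by ring
        _ ≤ _ := by
            refine mul_le_mul_of_nonneg_right ?_ hP.le
            have h1 : (S - ε0) * ε1 ≤ S * (ε0 / (2 * S)) :=
              mul_le_mul (by linarith) he1S he1.le (by linarith)
            have h2 : S * (ε0 / (2 * S)) = ε0 / 2 := by field_simp
            nlinarith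
    rw [hval]
    have hLe : Lam c * (S / Real.sqrt m) = S * (phi (ss c) / Real.sqrt m) := by rw [Lam_eq]; ring
    calc (S - ε) * phi n ≤ (S - ε0 / 2) * (phi (ss c) / Real.sqrt m) := hleft
      _ < (S - ε0 / 4) * (phi (ss c) / Real.sqrt m) := by
          refine mul_lt_mul_of_pos_right (by linarith) hP
      _ ≤ _ := by
          rw [hLe] at hAJ
          have e : (S - ε0 / 4) * (phi (ss c) / Real.sqrt m) = S * (phi (ss c) / Real.sqrt m) -
              ε0 / 4 * (phi (ss c) / Real.sqrt m) := by ring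
          rw [e]
          linarith

end Pool.Agent.H426R3.SN
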