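import Mathlib
import Pool.Agent.H426R3.SN.Lil

set_option autoImplicit false

namespace Pool.Agent.H426R3.SN

open Finset Filter Topology

attribute [local irreducible] KK mu MM BB QQ UU ell LL

theorem dd_le_one (x : ℕ) : dd x ≤ 1 := by
  unfold dd; omega

theorem dd_zero_inf (x0 : ℕ) : ∃ x, x0 ≤ x ∧ dd x = 0 := by
  have h1 := aa_bits (c := x0) (i := 0) (Nat.zero_le _)
  rw [add_zero] at h1
  have h2 : aa (NN x0) = 2 ^ (ee x0 (tt x0) - 1) := by
    have := aa_eq (c := x0) (i := 0) (Nat.zero_le _)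
    rw [add_zero] at this
    rw [this]; rfl
  have he : 2 ≤ ee x0 (tt x0) := by
    have h1 := mod_lt' x0 (tt x0)
    have h2 := ee_add x0 (tt x0)
    have h4 : 2 * (x0 + 16) ≤ (x0 + 16) ^ 3 := by
      have : (x0 + 16) ^ 3 = (x0 + 16) ^ 2 * (x0 + 16) := by ring
      rw [this]
      refine Nat.mul_le_mul_right _ ?_
      have : 2 ^ 2 ≤ (x0 + 16) ^ 2 := Nat.pow_le_pow_left (by omega) 2
      omega
    omega
  have hlen : len (NN x0) = ee x0 (tt x0) := h1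
  refine ⟨OO (NN x0) + 1, ?_, ?_⟩
  · have h3 := OO_strictMono.id_le (NN x0)
    have h4 := NN_strictMono.id_le x0
    simp only [id] at h3 h4
    omega
  · rw [dd_eq (by omega), h2, hlen]
    have e : 2 ^ (ee x0 (tt x0) - 1) = 2 * 2 ^ (ee x0 (tt x0) - 1 - 1) := by
      rw [← pow_succ']; congr 1; omega
    rw [e, Nat.mul_div_cancel _ (by positivity)]

noncomputable def xi : ℝ := ∑' i : ℕ, (dd i : ℝ) / (2 : ℝ) ^ (i + 1)

theorem partial_sum (n : ℕ) : ∑ i ∈ range n, (dd i : ℝ) / (2 : ℝ) ^ (i + 1) = (VV n : ℝ) / 2 ^ n := by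
  induction n with
  | zero => simp [VV]
  | succ n ih =>
    rw [Finset.sum_range_succ, ih, VV]
    push_cast
    field_simp
    ring

theorem term_le (i : ℕ) : (dd i : ℝ) / (2 : ℝ) ^ (i + 1) ≤ 1 / 2 / 2 ^ i := by
  have h : (dd i : ℝ) ≤ 1 := by exact_mod_cast dd_le_one i
  rw [div_div, ← pow_succ']
  exact div_le_div_of_nonneg_right h (by positivity)

theorem summ : Summable (fun i : ℕ => (dd i : ℝ) / (2 : ℝ) ^ (i + 1)) :=
  Summable.of_nonneg_of_le (fun i => by positivity) term_le (summable_geometric_two' 1)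

theorem floor_xi (n : ℕ) : ⌊xi * 2 ^ n⌋ = (VV n : ℤ) := by
  have h1 := summ.sum_add_tsum_nat_add n
  rw [partial_sum] at h1
  have hs : Summable (fun i : ℕ => (dd (i + n) : ℝ) / (2 : ℝ) ^ (i + n + 1)) :=
    (summable_nat_add_iff n).mpr summ
  have hg : Summable (fun i : ℕ => ((1 / 2) ^ n : ℝ) / 2 / 2 ^ i) := summable_geometric_two' _
  have h2 : 0 ≤ ∑' i : ℕ, (dd (i + n) : ℝ) / (2 : ℝ) ^ (i + n + 1) := tsum_nonneg fun i => by positivity
  have h3 : ∑' i : ℕ, (dd (i + n) : ℝ) / (2 : ℝ) ^ (i + n + 1) < (1 / 2) ^ n := by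
    obtain ⟨x, hx, hx0⟩ := dd_zero_inf n
    obtain ⟨j, rfl⟩ := Nat.exists_eq_add_of_le hx
    rw [← tsum_geometric_two' ((1 / 2 : ℝ) ^ n)]
    refine Summable.tsum_lt_tsum (i := j) (fun i => ?_) ?_ hs hg
    · have h := term_le (i + n)
      refine h.trans (le_of_eq ?_)
      rw [pow_add, one_div_pow]; field_simp
    · rw [add_comm j n, hx0]
      simp only [Nat.cast_zero, zero_div]
      positivity
  have h4 : xi * 2 ^ n = VV n + (∑' i : ℕ, (dd (i + n) : ℝ) / (2 : ℝ) ^ (i + n + 1)) * 2 ^ n := by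
    have : xi = (VV n : ℝ) / 2 ^ n + ∑' i : ℕ, (dd (i + n) : ℝ) / (2 : ℝ) ^ (i + n + 1) := h1.symm
    rw [this, add_mul, div_mul_cancel₀ _ (by positivity)]
  rw [Int.floor_eq_iff, h4]
  push_cast
  constructor
  · have : 0 ≤ (∑' i : ℕ, (dd (i + n) : ℝ) / (2 : ℝ) ^ (i + n + 1)) * 2 ^ n := by positivity
    linarith
  · have h5 : (∑' i : ℕ, (dd (i + n) : ℝ) / (2 : ℝ) ^ (i + n + 1)) * 2 ^ n < (1 / 2) ^ n * 2 ^ n :=
      mul_lt_mul_of_pos_right h3 (by positivity)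
    have h6 : ((1 / 2 : ℝ)) ^ n * 2 ^ n = 1 := by rw [← mul_pow]; norm_num
    linarith

theorem final (m : ℕ) (hm : 1 ≤ m) (k : ℕ) (hk : k < 2 ^ m) (F : ℕ → ℝ)
    (hF : ∀ n : ℕ, F n = ((((Finset.range n).filter
      (fun i : ℕ => ⌊xi * ((2 : ℝ) ^ m) ^ (i + 1)⌋ % ((2 : ℤ) ^ m) = (k : ℤ))).card : ℝ)
        - (n : ℝ) / (2 : ℝ) ^ m) / Real.sqrt (2 * (n : ℝ) * Real.log (Real.log (n : ℝ))))
    (ε : ℝ) (hε : 0 < ε) :
    (∀ᶠ n in atTop, F n < Real.sqrt ((2 : ℝ) ^ m - 1) / (2 : ℝ) ^ m + ε) ∧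
    (∃ᶠ n in atTop, Real.sqrt ((2 : ℝ) ^ m - 1) / (2 : ℝ) ^ m - ε < F n) ∧
    (∀ᶠ n in atTop, -(Real.sqrt ((2 : ℝ) ^ m - 1) / (2 : ℝ) ^ m) - ε < F n) ∧
    (∃ᶠ n in atTop, F n < -(Real.sqrt ((2 : ℝ) ^ m - 1) / (2 : ℝ) ^ m) + ε) := by
  have h2m : (0 : ℝ) < 2 ^ m := by positivity
  have hFD : ∀ n : ℕ, F n = (Del m k n : ℝ) / (2 ^ m * phi n) := by
    intro n
    rw [hF n]
    have hc : ((Finset.range n).filter
      (fun i : ℕ => ⌊xi * ((2 : ℝ) ^ m) ^ (i + 1)⌋ % ((2 : ℤ) ^ m) = (k : ℤ))).card = CC m k n := by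
      unfold CC
      congr 1
      refine Finset.filter_congr fun i _ => ?_
      rw [← pow_mul, floor_xi]
      constructor
      · intro h; exact_mod_cast h
      · intro h; exact_mod_cast h
    rw [hc]
    unfold Del phi
    push_cast
    rw [← div_div]
    congr 1
    field_simp
  have hpos : ∀ᶠ n : ℕ in atTop, 0 < phi n := by
    filter_upwards [tendsto_natCast_atTop_atTop.eventually sqrt_le_phi, eventually_gt_atTop 0] with n h1 h2
    exact lt_of_lt_of_le (Real.sqrt_pos.mpr (by exact_mod_cast h2)) h1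
  have hup := upper hm hk (ε * 2 ^ m / 2) (by positivity)
  set S := Real.sqrt ((2 : ℝ) ^ m - 1) with hS
  have habs : ∀ᶠ n : ℕ in atTop, |F n| < S / 2 ^ m + ε := by
    filter_upwards [hup, hpos] with n h1 h2
    rw [hFD, abs_div, abs_of_pos (mul_pos h2m h2), div_lt_iff₀ (mul_pos h2m h2)]
    refine h1.trans_lt ?_
    have : (S / 2 ^ m + ε) * (2 ^ m * phi n) = (S + ε * 2 ^ m) * phi n := by field_simp
    rw [this]
    refine mul_lt_mul_of_pos_right ?_ h2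
    have : 0 < ε * 2 ^ m := by positivity
    linarith
  have hpk : ∀ s : ℤ, (s = 1 ∨ s = -1) → ∃ᶠ n : ℕ in atTop, S / 2 ^ m - ε < s * F n := by
    intro s hs
    refine ((peak hm hk s hs (ε * 2 ^ m) (by positivity)).and_eventually hpos).mono ?_
    rintro n ⟨h1, h2⟩
    rw [hFD, ← mul_div_assoc, lt_div_iff₀ (mul_pos h2m h2)]
    rw [← hS] at h1
    refine lt_of_eq_of_lt ?_ h1
    field_simp
  refine ⟨habs.mono fun n h => (abs_lt.mp h).2, ?_, habs.mono fun n h => ?_, ?_⟩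
  · refine (hpk 1 (Or.inl rfl)).mono fun n h => ?_
    simpa using h
  · have := (abs_lt.mp h).1
    linarith
  · refine (hpk (-1) (Or.inr rfl)).mono fun n h => ?_
    push_cast at h
    linarith

end Pool.Agent.H426R3.SN
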